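import Pool.Agent.Lib_helper28.OCN.YcAr

/-!
# MP_aeb124_co: number game, pure inequalities (second part)

The potential with the reserve `H` is `o² - 2oE - 2d - 4f² - 2H - M²/2`, where
`4H = 8cm + 2m² + ((m - c)⁺)² - 2M²` and `M = (c + m - f)⁺`.
-/

set_option autoImplicit false

namespace Pool.Agent.OCN.YA

/-- `4H` -/
def H4 (m c f : ℤ) : ℤ := 8 * (c * m) + 2 * m ^ 2 + (max (m - c) 0) ^ 2 - 2 * (max (c + m - f) 0) ^ 2

/-- the barrier with a lag -/
theorem barrier_lag {o f m c M C y : ℤ} (hm : 0 ≤ m) (hc0 : 0 ≤ c) (hf : 0 ≤ f) (hy : 0 ≤ y)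
    (hc : c ≤ f + m + y) (hM : M = 0 ∨ (0 ≤ c + m - f ∧ M = c + m - f)) (hC : 0 ≤ C)
    (hmo : m ≤ o)
    (hV : 8 * f ^ 2 + 8 * (c * m) + 2 * m ^ 2 - M ^ 2 + (8 * (c * C) + 2 * C ^ 2) +
      16 * (y * (f + m + y)) < 2 * (o ^ 2 - 2 * (o * m))) : 2 * c + C ≤ o := by
  by_contra hcon
  rw [not_le] at hcon
  have h1 : o ^ 2 - 2 * (o * m) ≤ (2 * c + C) ^ 2 - 2 * ((2 * c + C) * m) := by
    have h2 : 0 ≤ (2 * c + C - o) * ((2 * c + C - m) + (o - m)) :=
      mul_nonneg (by linarith) (by linarith)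
    nlinarith
  have h2 : 0 ≤ C * m := mul_nonneg hC hm
  have hyf : 0 ≤ y * f := mul_nonneg hy hf
  have hym : 0 ≤ y * m := mul_nonneg hy hm
  have hyy : 0 ≤ y * y := mul_nonneg hy hy
  have h3 : 0 ≤ 8 * f ^ 2 + 16 * (c * m) + 2 * m ^ 2 - M ^ 2 - 8 * c ^ 2 +
      16 * (y * (f + m + y)) := by
    obtain ⟨j, hj⟩ : ∃ j, j = c - f := ⟨_, rfl⟩
    have hc' : c = f + j := by linarith
    by_cases h4 : 0 ≤ j
    · have h5 : 0 ≤ m + y - j := by linarith
      have h6 : M ^ 2 ≤ (m + j) ^ 2 := by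
        rcases hM with h | h
        · rw [h]
          positivity
        · rw [h.2]
          exact pow_le_pow_left₀ h.1 (by linarith) 2
      rw [hc']
      have h7 : 0 ≤ f * (m + y - j) := mul_nonneg hf h5
      have h8 : 0 ≤ j * (m + y - j) := mul_nonneg h4 h5
      have h9 : 0 ≤ y * (m + y - j) := mul_nonneg hy h5
      have h10 : 0 ≤ j * m := mul_nonneg h4 hm
      nlinarith [sq_nonneg m]
    · rw [not_le] at h4
      have h6 : M ^ 2 ≤ m ^ 2 := by
        rcases hM with h | h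
        · rw [h]
          positivity
        · rw [h.2]
          exact pow_le_pow_left₀ h.1 (by linarith) 2
      have h7 : c ^ 2 ≤ f ^ 2 := pow_le_pow_left₀ hc0 (by linarith) 2
      have h8 : 0 ≤ c * m := mul_nonneg hc0 hm
      nlinarith [sq_nonneg m]
  nlinarith

/-- the potential with the reserve `H` controls the potential of the levels `s ≤ f` -/
theorem psi_P {o f m c M s S : ℤ} (hs : s ≤ f) (hmo : m ≤ o)
    (hV : 16 * f ^ 2 + 16 * (c * m) + 4 * m ^ 2 - 2 * M ^ 2 + 4 * S ≤ 4 * (o ^ 2 - 2 * (o * m))) :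
    2 * S + 4 * m ^ 2 - M ^ 2 ≤
      4 * (o ^ 2 - 2 * (o * m) - 2 * (s * o) - 2 * (m * (c - s)) + m ^ 2) := by
  have h1 : 0 ≤ (f - s) * (o - m) := mul_nonneg (by linarith) (by linarith)
  nlinarith [sq_nonneg (o - m - 2 * f)]

/-- the survivors pay for the reserve `H` when they are on the level `f` -/
theorem cap_H {f m c n : ℤ} (hm : 0 ≤ m) (hc0 : 0 ≤ c) (hf : 0 ≤ f)
    (hn : 3 * f + c + m ≤ 2 * n) : H4 m c f ≤ 4 * (n * m) := by
  unfold H4
  have h1 : (3 * f + c + m) * m ≤ 2 * n * m := mul_le_mul_of_nonneg_right hn hm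
  obtain ⟨j, hj⟩ : ∃ j, j = c - f := ⟨_, rfl⟩
  have hc' : c = f + j := by linarith
  have hfm : 0 ≤ f * m := mul_nonneg hf hm
  have hcm : 0 ≤ c * m := mul_nonneg hc0 hm
  rcases le_total (m - c) 0 with h2 | h2 <;> rcases le_total (c + m - f) 0 with h3 | h3
  · rw [max_eq_right h2, max_eq_right h3]
    nlinarith
  · rw [max_eq_right h2, max_eq_left h3, hc']
    rw [hc'] at h1
    nlinarith [sq_nonneg (m - j), sq_nonneg j, sq_nonneg m]
  · rw [max_eq_left h2, max_eq_right h3]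
    nlinarith [mul_nonneg hm (show 0 ≤ f - c - m by linarith)]
  · rw [max_eq_left h2, max_eq_left h3, hc']
    rw [hc'] at h1 hcm
    nlinarith [sq_nonneg (m - j), sq_nonneg j, sq_nonneg m]

/-- a conversion: the reserve falls by at least `c` -/
theorem conv_H {f m c : ℤ} (hm : 1 ≤ m) (hc0 : 0 ≤ c) :
    H4 (m - 1) (c + 1) f + 4 * c + 2 ≤ H4 m c f := by
  unfold H4
  have h0 : c + 1 + (m - 1) - f = c + m - f := by ring
  rw [h0]
  rcases le_total (m - c) 0 with h2 | h2
  · rw [max_eq_right h2, max_eq_right (by linarith)]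
    nlinarith
  · rw [max_eq_left h2]
    rcases le_total (m - 1 - (c + 1)) 0 with h3 | h3
    · rw [max_eq_right h3]
      have h4 : 0 ≤ (m - c) * (2 - (m - c)) := mul_nonneg h2 (by linarith)
      rcases le_or_gt (m - c) 0 with h5 | h5
      · have h6 : m = c := by linarith
        subst h6
        nlinarith
      · rcases le_or_gt (m - c) 1 with h7 | h7
        · have h6 : m = c + 1 := by linarith
          subst h6
          nlinarith
        · have h6 : m = c + 2 := by linarith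
          subst h6
          nlinarith
    · rw [max_eq_left h3]
      nlinarith

end Pool.Agent.OCN.YA
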