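import Pool.Agent.Lib_helper68.OCN.YcJ0
import Pool.Agent.Lib_helper28.OCN.YcB

/-!
# MP_aeb124_co: number game, pure inequalities for the potentials of class M
-/

set_option autoImplicit false

namespace Pool.Agent.OCN.YC

/-- the tops and the reserve: the quadratic terms without `o` -/
theorem pH_low {f m c : ℤ} (hm : 0 ≤ m) (hf : 0 ≤ f) (hc0 : 0 ≤ c) (hc : c ≤ f + m + 13) :
    -(26 * m + 338) ≤ 16 * (c * m) + 4 * m ^ 2 - 2 * (max 0 (c + m - f)) ^ 2 := by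
  obtain ⟨j, hj⟩ : ∃ j, j = c - f := ⟨_, rfl⟩
  have hc' : c = f + j := by linarith
  have hfm : 0 ≤ f * m := mul_nonneg hf hm
  have hcm : 0 ≤ c * m := mul_nonneg hc0 hm
  rcases le_total 0 (c + m - f) with h1 | h1
  · rw [max_eq_right h1]
    rcases le_total 0 j with h2 | h2
    · have h3 : 0 ≤ j * (m + 13 - j) := mul_nonneg h2 (by linarith)
      have h4 : 0 ≤ j * m := mul_nonneg h2 hm
      rw [hc']
      nlinarith
    · have h3 : (c + m - f) ^ 2 ≤ m ^ 2 := pow_le_pow_left₀ h1 (by linarith) 2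
      nlinarith [sq_nonneg m]
  · rw [max_eq_left h1]
    nlinarith [sq_nonneg m]

/-- the barriers -/
theorem bar0 {o f m c K Q : ℤ} (hK : 50 ≤ K) (hKQ : K ≤ Q) (ho0 : 0 ≤ o) (hm : 0 ≤ m)
    (hf : 0 ≤ f) (hc0 : 0 ≤ c) (hc : c ≤ f + m + 13)
    (hV : 200 * (K * o) + 700 * (K * Q) ≤ 4 * o ^ 2 - 8 * (o * m) - 16 * f ^ 2 -
      2 * (max 0 (c + m - f)) ^ 2 + 8 * m + 8 * f - pH f m c) :
    2 * c + K + 30 ≤ o ∧ c + m + K + 30 ≤ o ∧ 2 * m + K + 30 ≤ o ∧ f + m + K + 30 ≤ o := by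
  have h1 := pH_low hm hf hc0 hc
  have hKK : K * K ≤ K * Q := mul_le_mul_of_nonneg_left hKQ (by linarith)
  have hKo : 50 * o ≤ K * o := mul_le_mul_of_nonneg_right hK ho0
  have hKK2 : 50 * K ≤ K * K := mul_le_mul_of_nonneg_right hK (by linarith)
  unfold pH at hV
  set M := max 0 (c + m - f) with hMdef
  have hd2 : 0 ≤ (max 0 (m - c)) ^ 2 := sq_nonneg _
  have hy2 : 0 ≤ (max 0 (c - f - m)) ^ 2 := sq_nonneg _
  -- `2m + 50K ≤ o`
  have h2 : 200 * (K * o) + 700 * (K * Q) + 30 * m - 338 + (16 * f ^ 2 - 8 * f) ≤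
      4 * o ^ 2 - 8 * (o * m) := by linarith
  have hf2 : 0 ≤ 16 * f ^ 2 - 8 * f + 1 := by nlinarith [sq_nonneg (4 * f - 1)]
  have h3 : 2 * m + 50 * K ≤ o := by
    by_contra hcon
    rw [not_le] at hcon
    have h4 : o * (o - 2 * m - 50 * K) ≤ 0 := mul_nonpos_of_nonneg_of_nonpos ho0 (by linarith)
    nlinarith
  have h4 : f + m + K + 30 ≤ o := by
    obtain ⟨t, ht⟩ : ∃ t, t = o - m := ⟨_, rfl⟩
    have h5 : 16 * f ^ 2 - 8 * f + 4 * m ^ 2 ≤ 4 * t ^ 2 := by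
      rw [ht]
      nlinarith
    by_contra hcon
    rw [not_le] at hcon
    have h6 : t + 1 ≤ 2 * f - 1 := by linarith
    have h7 : 0 ≤ t := by linarith
    nlinarith [sq_nonneg m]
  refine ⟨?_, ?_, by linarith, h4⟩
  · have h5 : c ≤ o := by linarith
    have h6 : c * K ≤ o * K := mul_le_mul_of_nonneg_right h5 (by linarith)
    refine YA.barrier_lag (o := o) (f := f) (m := m) (c := c) (M := M) (C := K + 30) (y := 13)
      hm hc0 hf (by norm_num) hc ?_ (by linarith) (by linarith) ?_ |>.trans' (by linarith)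
    · rcases le_total 0 (c + m - f) with h7 | h7
      · right
        exact ⟨h7, by rw [hMdef, max_eq_right h7]⟩
      · left
        rw [hMdef, max_eq_left h7]
    · nlinarith
  · have h5 : c ≤ o := by linarith
    have h6 : c * K ≤ o * K := mul_le_mul_of_nonneg_right h5 (by linarith)
    have h8 : 2 * c + (K + 30) ≤ o := by
      refine YA.barrier_lag (o := o) (f := f) (m := m) (c := c) (M := M) (C := K + 30) (y := 13)
        hm hc0 hf (by norm_num) hc ?_ (by linarith) (by linarith) ?_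
      · rcases le_total 0 (c + m - f) with h7 | h7
        · right
          exact ⟨h7, by rw [hMdef, max_eq_right h7]⟩
        · left
          rw [hMdef, max_eq_left h7]
      · nlinarith
    linarith

theorem al_le (f : ℕ) (v : Vd) : al f v ≤ 8 * f + 64 := by
  unfold al
  have h0 : (0 : ℤ) ≤ f := Int.natCast_nonneg _
  have h1 : min (max 0 ((v.c : ℤ) - v.m)) (f : ℤ) ≤ f := min_le_right _ _
  split_ifs <;> linarith

theorem al_nonneg (f : ℕ) (v : Vd) : 0 ≤ al f v := by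
  unfold al
  have h0 : (0 : ℤ) ≤ f := Int.natCast_nonneg _
  have h1 : 0 ≤ min (max 0 ((v.c : ℤ) - v.m)) (f : ℤ) := le_min (le_max_left _ _) h0
  split_ifs <;> linarith

/-- the barriers of a position of class M -/
theorem barJ {P : Par} {o u μ ra I : ℕ} {β : Multiset ℕ} {v : Vd} {e : ℤ}
    (sn : Sn P o u μ β v) (hI : I ≤ o + 1) (hc : v.c ≤ P.f + v.m + 13)
    (he : e ≤ 8 * P.f + 8 * ((v.m : ℤ) - v.z) + 16 * P.K + 300)
    (ps : T4 P o ≤ Psi P o ra v + 8 * I + e) :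
    2 * v.c + P.K + 30 ≤ o ∧ v.c + v.m + P.K + 30 ≤ o ∧ 2 * v.m + P.K + 30 ≤ o ∧
      P.f + v.m + P.K + 30 ≤ o := by
  have hKn : 50 ≤ P.K := by
    have h1 := P.hR
    have h2 := P.hK
    have h3 : P.R0 ≤ kap P.Q P.R0 := by
      unfold kap
      rw [add_assoc]
      exact Nat.le_add_right _ _
    omega
  have hK : (50 : ℤ) ≤ P.K := by exact_mod_cast hKn
  have hKQ : (P.K : ℤ) ≤ P.Q := by exact_mod_cast P.hKQ
  have ho : (0 : ℤ) ≤ o := Int.natCast_nonneg _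
  have h1 : (v.m : ℤ) + μ = v.E + v.w := by exact_mod_cast sn.hm
  have hw : (v.w : ℤ) ≤ P.K := by exact_mod_cast sn.hw
  have hIz : (I : ℤ) ≤ o + 1 := by exact_mod_cast hI
  have hcz : (v.c : ℤ) ≤ P.f + v.m + 13 := by exact_mod_cast hc
  have hKo : 50 * (o : ℤ) ≤ P.K * o := mul_le_mul_of_nonneg_right hK ho
  have hKK : (P.K : ℤ) * P.K ≤ P.K * P.Q := mul_le_mul_of_nonneg_left hKQ (by linarith)
  have hKK2 : 50 * (P.K : ℤ) ≤ P.K * P.K := mul_le_mul_of_nonneg_right hK (by linarith)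
  have h2 : (o : ℤ) * v.E = o * v.m + o * μ - o * v.w := by
    have : (v.E : ℤ) = v.m + μ - v.w := by linarith
    rw [this]
    ring
  have h3 : (o : ℤ) * v.w ≤ o * P.K := mul_le_mul_of_nonneg_left hw ho
  have h4 : (0 : ℤ) ≤ (o : ℤ) * μ := by positivity
  have h5 : (0 : ℤ) ≤ v.X := Int.natCast_nonneg _
  have h6 : (0 : ℤ) ≤ ra := Int.natCast_nonneg _
  have h7 := bar0 (o := o) (f := P.f) (m := v.m) (c := v.c) (K := P.K) (Q := P.Q) hK hKQ ho
    (Int.natCast_nonneg _) (Int.natCast_nonneg _) (Int.natCast_nonneg _) hcz (by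
      unfold Psi pQ pS T4 at ps
      nlinarith)
  exact_mod_cast h7

/-- the potential `P` from the potential `Ψ` -/
theorem P_of_Psi {P : Par} {o ra I : ℕ} {v : Vd} {e : ℤ} (hw : v.w = 0) (hE : v.E = v.m)
    (hc : v.c ≤ P.f + v.m + 13) (hmo : v.m ≤ o) (hfo : P.f ≤ o)
    (hX : (ra : ℤ) + v.X ≤ 8 * (P.K * o))
    (he : e ≤ 8 * P.f + 8 * (v.m : ℤ) + 16 * P.K + 300)
    (ps : T4 P o ≤ Psi P o ra v + 8 * I + e) : TP P o v ≤ Pee P o ra v + 8 * I := by
  have hKn : 50 ≤ P.K := by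
    have h1 := P.hR
    have h2 := P.hK
    have h3 : P.R0 ≤ kap P.Q P.R0 := by
      unfold kap
      rw [add_assoc]
      exact Nat.le_add_right _ _
    omega
  have hK : (50 : ℤ) ≤ P.K := by exact_mod_cast hKn
  have hKQ : (P.K : ℤ) ≤ P.Q := by exact_mod_cast P.hKQ
  have ho : (0 : ℤ) ≤ o := Int.natCast_nonneg _
  have hcz : (v.c : ℤ) ≤ P.f + v.m + 13 := by exact_mod_cast hc
  have hmz : (v.m : ℤ) ≤ o := by exact_mod_cast hmo
  have hfz : (P.f : ℤ) ≤ o := by exact_mod_cast hfo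
  have hKo : 50 * (o : ℤ) ≤ P.K * o := mul_le_mul_of_nonneg_right hK ho
  have hKK : (P.K : ℤ) * P.K ≤ P.K * P.Q := mul_le_mul_of_nonneg_left hKQ (by linarith)
  have hKK2 : 50 * (P.K : ℤ) ≤ P.K * P.K := mul_le_mul_of_nonneg_right hK (by linarith)
  have hm0 : (0 : ℤ) ≤ v.m := Int.natCast_nonneg _
  have hf0 : (0 : ℤ) ≤ P.f := Int.natCast_nonneg _
  have hc0 : (0 : ℤ) ≤ v.c := Int.natCast_nonneg _
  have hz0 : (0 : ℤ) ≤ v.z := Int.natCast_nonneg _
  have hI0 : (0 : ℤ) ≤ I := Int.natCast_nonneg _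
  have h5 : (0 : ℤ) ≤ v.X := Int.natCast_nonneg _
  have h6 : (0 : ℤ) ≤ ra := Int.natCast_nonneg _
  have hd2 : 0 ≤ (max 0 ((v.m : ℤ) - v.c)) ^ 2 := sq_nonneg _
  have hy2 : 0 ≤ (max 0 ((v.c : ℤ) - P.f - v.m)) ^ 2 := sq_nonneg _
  have hM0 : (0 : ℤ) ≤ max 0 ((v.c : ℤ) + v.m - P.f) := le_max_left _ _
  have hM1 : max 0 ((v.c : ℤ) + v.m - P.f) ≤ 2 * v.m + 13 := max_le (by linarith) (by linarith)
  have hM2 : (max 0 ((v.c : ℤ) + v.m - P.f)) ^ 2 ≤ (2 * v.m + 13) ^ 2 :=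
    pow_le_pow_left₀ hM0 hM1 2
  unfold Psi pQ pS pH T4 at ps
  unfold Pee pQ pP TP
  rw [hE] at ps ⊢
  rw [hw, Nat.cast_zero, zero_mul, mul_zero, add_zero]
  set M := max 0 ((v.c : ℤ) + v.m - P.f) with hM
  set dd := max 0 ((v.m : ℤ) - v.c) with hdd
  set y := max 0 ((v.c : ℤ) - P.f - v.m) with hy
  -- the level `s`
  obtain ⟨s, hs, hs1, hs2⟩ : ∃ s : ℤ, s = min (v.c : ℤ) P.f ∧ s ≤ P.f ∧
      (v.m : ℤ) * max 0 ((v.c : ℤ) - P.f) = v.m * (v.c - s) := by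
    refine ⟨_, rfl, min_le_right _ _, ?_⟩
    rcases le_total (v.c : ℤ) P.f with h | h
    · rw [min_eq_left h, max_eq_left (by linarith), sub_self]
    · rw [min_eq_right h, max_eq_right (by linarith)]
  rw [← hs, hs2]
  obtain ⟨T, hT⟩ : ∃ T : ℤ, T = 256 * ((P.K : ℤ) * o) + 800 * ((P.K : ℤ) * P.Q) := ⟨_, rfl⟩
  have h7 := YA.psi_P (o := o) (f := P.f) (m := v.m) (c := v.c) (M := M) (s := s)
    (S := 64 * ((P.K : ℤ) * o) + 200 * ((P.K : ℤ) * P.Q) + 2 * ra - 2 * v.z + 2 * v.X - 2 * I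
      - (2 * P.f + 2 * v.m + 4 * P.K + 75)) hs1 hmz (by nlinarith)
  nlinarith

/-- the survivors on the level `f` pay for the reserve -/
theorem capJ {P : Par} {o u μ : ℕ} {β : Multiset ℕ} {v : Vd} (sn : Sn P o u μ β v) :
    pH P.f v.m v.c + (v.m : ℤ) ^ 2 + (16 * P.K + 336) * v.m ≤ 8 * (v.n * (v.m : ℤ)) := by
  have hn : 3 * (P.f : ℤ) + v.c + v.m + 4 * P.K + 100 ≤ 2 * v.n := by exact_mod_cast sn.hn
  have hm : (0 : ℤ) ≤ v.m := Int.natCast_nonneg _
  have hf : (0 : ℤ) ≤ P.f := Int.natCast_nonneg _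
  have hc0 : (0 : ℤ) ≤ v.c := Int.natCast_nonneg _
  have h1 : (3 * (P.f : ℤ) + v.c + v.m + 4 * P.K + 100) * v.m ≤ 2 * v.n * v.m :=
    mul_le_mul_of_nonneg_right hn hm
  unfold pH
  obtain ⟨j, hj⟩ : ∃ j : ℤ, j = v.c - P.f := ⟨_, rfl⟩
  have hc' : (v.c : ℤ) = P.f + j := by linarith
  generalize (v.c : ℤ) = c at *
  generalize (P.f : ℤ) = f at *
  generalize (v.m : ℤ) = m at *
  generalize (v.n : ℤ) = n at *
  generalize (P.K : ℤ) = K at *
  subst hc'
  have hfm : 0 ≤ f * m := mul_nonneg hf hm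
  rcases le_total 0 (f + j + m - f) with h3 | h3
  · rw [max_eq_right h3]
    rcases le_total 0 (f + j - f - m) with h4 | h4
    · -- above the line
      rw [max_eq_right h4, max_eq_left (show m - (f + j) ≤ 0 by linarith)]
      have h5 : 0 ≤ (j - m) * m := mul_nonneg (by linarith) hm
      nlinarith
    · rw [max_eq_left h4]
      rcases le_total 0 (m - (f + j)) with h2 | h2
      · rw [max_eq_right h2]
        nlinarith [sq_nonneg (m - j), sq_nonneg j, sq_nonneg m, mul_nonneg hf h2]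
      · rw [max_eq_left h2]
        nlinarith [sq_nonneg (m - j), sq_nonneg j, sq_nonneg m]
  · rw [max_eq_left h3, max_eq_left (show f + j - f - m ≤ 0 by linarith)]
    have h5 : 0 ≤ m * (-j - m) := mul_nonneg hm (by linarith)
    have h6 : (max 0 (m - (f + j))) ^ 2 ≤ m ^ 2 :=
      pow_le_pow_left₀ (le_max_left _ _) (max_le hm (by linarith)) 2
    nlinarith

/-- a conversion: the reserve falls -/
theorem convJ {f m c : ℤ} (hm : 1 ≤ m) (hc0 : 0 ≤ c) (hc : c ≤ f + m) :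
    pH f (m - 1) (c + 1) + 8 * c + 52 ≤ pH f m c := by
  have h1 := YA.conv_H (f := f) hm hc0
  unfold YA.H4 at h1
  unfold pH
  rw [max_comm (m - 1 - (c + 1)) 0, max_comm (c + 1 + (m - 1) - f) 0, max_comm (m - c) 0,
    max_comm (c + m - f) 0] at h1
  have h2 : (max 0 (c + 1 - f - (m - 1))) ^ 2 ≤ 4 := by
    have h3 : (max 0 (c + 1 - f - (m - 1))) ^ 2 ≤ 2 ^ 2 :=
      pow_le_pow_left₀ (le_max_left _ _) (max_le (by norm_num) (by linarith)) 2
    linarith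
  have h4 : max 0 (c - f - m) = 0 := max_eq_left (by linarith)
  rw [h4]
  linarith

end Pool.Agent.OCN.YC
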