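import Pool.Agent.Lib_helper28.OCN.YcB1

/-!
# MP_aeb124_co: number game, blocks B1, B2
-/

set_option autoImplicit false

namespace Pool.Agent.OCN.YC

theorem B_K50 (P : Par) : 50 ≤ P.K := by
  have h1 := P.hR
  have h2 := P.hK
  have h3 : P.R0 ≤ kap P.Q P.R0 := by
    unfold kap
    rw [add_assoc]
    exact Nat.le_add_right _ _
  omega

/-- the barriers, strong form -/
theorem B_bar {o f m c K Q : ℤ} (hK : 50 ≤ K) (hKQ : K ≤ Q) (ho0 : 0 ≤ o) (hm : 0 ≤ m)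
    (hf : 0 ≤ f) (hc0 : 0 ≤ c) (hc : c ≤ f + m + 13)
    (hV : 240 * (K * o) + 700 * (K * Q) ≤ 4 * o ^ 2 - 8 * (o * m) - 16 * f ^ 2 -
      2 * (max 0 (c + m - f)) ^ 2 + 16 * m + 8 * f - pH f m c) :
    2 * c + 12 * K ≤ o ∧ f + m + 12 * K ≤ o := by
  have h1 := pH_low hm hf hc0 hc
  have hKK : K * K ≤ K * Q := mul_le_mul_of_nonneg_left hKQ (by linarith)
  have hKo : 50 * o ≤ K * o := mul_le_mul_of_nonneg_right hK ho0
  have hKK2 : 50 * K ≤ K * K := mul_le_mul_of_nonneg_right hK (by linarith)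
  unfold pH at hV
  set M := max 0 (c + m - f) with hMdef
  have hd2 : 0 ≤ (max 0 (m - c)) ^ 2 := sq_nonneg _
  have hy2 : 0 ≤ (max 0 (c - f - m)) ^ 2 := sq_nonneg _
  have h2 : 240 * (K * o) + 700 * (K * Q) + 22 * m - 338 + (16 * f ^ 2 - 8 * f) ≤
      4 * o ^ 2 - 8 * (o * m) := by linarith
  have hf2 : 0 ≤ 16 * f ^ 2 - 8 * f + 1 := by nlinarith [sq_nonneg (4 * f - 1)]
  have h3 : 2 * m + 60 * K ≤ o := by
    by_contra hcon
    rw [not_le] at hcon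
    have h4 : o * (o - 2 * m - 60 * K) ≤ 0 := mul_nonpos_of_nonneg_of_nonpos ho0 (by linarith)
    nlinarith
  have h4 : f + m + 12 * K ≤ o := by
    obtain ⟨t, ht⟩ : ∃ t, t = o - m := ⟨_, rfl⟩
    have h5 : 16 * f ^ 2 - 8 * f + 4 * m ^ 2 ≤ 4 * t ^ 2 := by
      rw [ht]
      nlinarith
    by_contra hcon
    rw [not_le] at hcon
    have h6 : t + 1 ≤ 2 * f - 1 := by linarith
    have h7 : 0 ≤ t := by linarith
    nlinarith [sq_nonneg m]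
  refine ⟨?_, h4⟩
  have h5 : c ≤ o := by linarith
  have h6 : c * K ≤ o * K := mul_le_mul_of_nonneg_right h5 (by linarith)
  refine YA.barrier_lag (o := o) (f := f) (m := m) (c := c) (M := M) (C := 12 * K) (y := 13)
    hm hc0 hf (by norm_num) hc ?_ (by linarith) (by linarith) ?_
  · rcases le_total 0 (c + m - f) with h7 | h7
    · right
      exact ⟨h7, by rw [hMdef, max_eq_right h7]⟩
    · left
      rw [hMdef, max_eq_left h7]
  · nlinarith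

variable {P : Par} {v : Vd} {o u μ : ℕ} {β : Multiset ℕ}

/-- the barrier -/
theorem bar {ra : ℕ} (h : Sn P o u μ β v) (hy : v.c ≤ P.f + v.m + 13)
    (hps : T4 P o ≤ Psi P o ra v + 8 * ((v.c : ℤ) + P.K + 20) + 64) :
    2 * v.c + 12 * P.K ≤ o ∧ 2 * v.E + 12 * P.K ≤ o ∧ 12 * P.K ≤ o := by
  have hK : (50 : ℤ) ≤ P.K := by exact_mod_cast B_K50 P
  have hKQ : (P.K : ℤ) ≤ P.Q := by exact_mod_cast P.hKQ
  have ho : (0 : ℤ) ≤ o := Int.natCast_nonneg _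
  have h1 : (v.m : ℤ) + μ = v.E + v.w := by exact_mod_cast h.hm
  have hw : (v.w : ℤ) ≤ P.K := by exact_mod_cast h.hw
  have hz : (v.z : ℤ) ≤ v.m := by exact_mod_cast h.hz
  have hcz : (v.c : ℤ) ≤ P.f + v.m + 13 := by exact_mod_cast hy
  have hKo : 50 * (o : ℤ) ≤ P.K * o := mul_le_mul_of_nonneg_right hK ho
  have hKK : (P.K : ℤ) * P.K ≤ P.K * P.Q := mul_le_mul_of_nonneg_left hKQ (by linarith)
  have hKK2 : 50 * (P.K : ℤ) ≤ P.K * P.K := mul_le_mul_of_nonneg_right hK (by linarith)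
  have h2 : (o : ℤ) * v.E = o * v.m + o * μ - o * v.w := by
    have : (v.E : ℤ) = v.m + μ - v.w := by linarith
    rw [this]
    ring
  have h3 : (o : ℤ) * v.w ≤ o * P.K := mul_le_mul_of_nonneg_left hw ho
  have h4 : (0 : ℤ) ≤ (o : ℤ) * μ := by positivity
  have h5 : (0 : ℤ) ≤ v.X := Int.natCast_nonneg _
  have h6 : (0 : ℤ) ≤ ra := Int.natCast_nonneg _
  have hm0 : (0 : ℤ) ≤ v.m := Int.natCast_nonneg _
  have hf0 : (0 : ℤ) ≤ P.f := Int.natCast_nonneg _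
  have hc0 : (0 : ℤ) ≤ v.c := Int.natCast_nonneg _
  have h7 := B_bar (o := o) (f := P.f) (m := v.m) (c := v.c) (K := P.K) (Q := P.Q) hK hKQ ho
    hm0 hf0 hc0 hcz (by
      unfold Psi pQ pS T4 at hps
      nlinarith)
  have h8 : 2 * (v.E : ℤ) + 12 * P.K ≤ o := by
    have h9 := pH_low hm0 hf0 hc0 hcz
    have h10 : (0 : ℤ) ≤ (max 0 ((v.m : ℤ) - v.c)) ^ 2 := sq_nonneg _
    have h11 : (0 : ℤ) ≤ (max 0 ((v.c : ℤ) - P.f - v.m)) ^ 2 := sq_nonneg _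
    unfold Psi pQ pS pH T4 at hps
    by_contra hcon
    rw [not_le] at hcon
    have h12 : (o : ℤ) * (o - 2 * v.E - 12 * P.K) ≤ 0 :=
      mul_nonpos_of_nonneg_of_nonpos ho (by linarith)
    nlinarith [sq_nonneg (4 * (P.f : ℤ) - 1)]
  refine ⟨by exact_mod_cast h7.1, by exact_mod_cast h8, ?_⟩
  have h9 : 12 * (P.K : ℤ) ≤ o := by linarith [h7.1]
  exact_mod_cast h9

/-- `Ψ` implies `P` -/
theorem psip {ra : ℕ} (h : Sn P o u 0 β v) (hy : v.c ≤ P.f + v.m + 13)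
    (hra : ra ≤ P.Q) (hX : v.X ≤ 12 * (v.c + 1))
    (hps : T4 P o ≤ Psi P o ra v + 8 * ((v.c : ℤ) + P.K + 20) + 64) :
    TP P o v + 16 * (o : ℤ) ≤ Pee P o ra v := by
  obtain ⟨hb1, hb2, hb3⟩ := bar h hy hps
  have hK : (50 : ℤ) ≤ P.K := by exact_mod_cast B_K50 P
  have hKQ : (P.K : ℤ) ≤ P.Q := by exact_mod_cast P.hKQ
  have ho : (0 : ℤ) ≤ o := Int.natCast_nonneg _
  have h1 : (v.m : ℤ) = v.E + v.w := by
    have := h.hm
    rw [add_zero] at this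
    exact_mod_cast this
  have hw : (v.w : ℤ) ≤ P.K := by exact_mod_cast h.hw
  have hz : (v.z : ℤ) ≤ v.m := by exact_mod_cast h.hz
  have hcz : (v.c : ℤ) ≤ P.f + v.m + 13 := by exact_mod_cast hy
  have hb1z : 2 * (v.c : ℤ) + 12 * P.K ≤ o := by exact_mod_cast hb1
  have hb2z : 2 * (v.E : ℤ) + 12 * P.K ≤ o := by exact_mod_cast hb2
  have hXz : (v.X : ℤ) ≤ 12 * (v.c + 1) := by exact_mod_cast hX
  have hraz : (ra : ℤ) ≤ P.Q := by exact_mod_cast hra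
  have hKo : 50 * (o : ℤ) ≤ P.K * o := mul_le_mul_of_nonneg_right hK ho
  have hKQ50 : 50 * (P.Q : ℤ) ≤ P.K * P.Q := mul_le_mul_of_nonneg_right hK (by linarith)
  have hKK : (P.K : ℤ) * P.K ≤ P.K * P.Q := mul_le_mul_of_nonneg_left hKQ (by linarith)
  have hKK2 : 50 * (P.K : ℤ) ≤ P.K * P.K := mul_le_mul_of_nonneg_right hK (by linarith)
  have hm0 : (0 : ℤ) ≤ v.m := Int.natCast_nonneg _
  have hf0 : (0 : ℤ) ≤ P.f := Int.natCast_nonneg _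
  have hc0 : (0 : ℤ) ≤ v.c := Int.natCast_nonneg _
  have hz0 : (0 : ℤ) ≤ v.z := Int.natCast_nonneg _
  have hX0 : (0 : ℤ) ≤ v.X := Int.natCast_nonneg _
  have hra0 : (0 : ℤ) ≤ ra := Int.natCast_nonneg _
  have hw0 : (0 : ℤ) ≤ v.w := Int.natCast_nonneg _
  have hE0 : (0 : ℤ) ≤ v.E := Int.natCast_nonneg _
  have hmo : (v.m : ℤ) ≤ o := by linarith
  have hwo : (o : ℤ) * v.w ≤ o * P.K := mul_le_mul_of_nonneg_left hw ho
  have hwo0 : (0 : ℤ) ≤ (o : ℤ) * v.w := mul_nonneg ho hw0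
  have hd2 : 0 ≤ (max 0 ((v.m : ℤ) - v.c)) ^ 2 := sq_nonneg _
  have hy2 : 0 ≤ (max 0 ((v.c : ℤ) - P.f - v.m)) ^ 2 := sq_nonneg _
  have hM0 : (0 : ℤ) ≤ max 0 ((v.c : ℤ) + v.m - P.f) := le_max_left _ _
  have hM1 : max 0 ((v.c : ℤ) + v.m - P.f) ≤ 2 * v.m + 13 := max_le (by linarith) (by linarith)
  have hM2 : (max 0 ((v.c : ℤ) + v.m - P.f)) ^ 2 ≤ (2 * v.m + 13) ^ 2 :=
    pow_le_pow_left₀ hM0 hM1 2
  have hEm : (v.E : ℤ) = v.m - v.w := by linarith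
  unfold Psi pQ pS pH T4 at hps
  unfold Pee pQ pP TP
  rw [hEm] at hps ⊢
  set M := max 0 ((v.c : ℤ) + v.m - P.f) with hM
  set dd := max 0 ((v.m : ℤ) - v.c) with hdd
  set y := max 0 ((v.c : ℤ) - P.f - v.m) with hy'
  obtain ⟨s, hs, hs1, hs3, hs2⟩ : ∃ s : ℤ, s = min (v.c : ℤ) P.f ∧ s ≤ P.f ∧ s ≤ v.c ∧
      (v.m : ℤ) * max 0 ((v.c : ℤ) - P.f) = v.m * (v.c - s) := by
    refine ⟨_, rfl, min_le_right _ _, min_le_left _ _, ?_⟩
    rcases le_total (v.c : ℤ) P.f with h | h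
    · rw [min_eq_left h, max_eq_left (by linarith), sub_self]
    · rw [min_eq_right h, max_eq_right (by linarith)]
  rw [← hs, hs2]
  -- `w (m + s) ≤ w o`
  have hms : (v.w : ℤ) * (v.m + s) ≤ v.w * o := by
    refine mul_le_mul_of_nonneg_left ?_ hw0
    linarith
  have h7 := YA.psi_P (o := o) (f := P.f) (m := v.m) (c := v.c) (M := M) (s := s)
    (S := 64 * ((P.K : ℤ) * o) + 200 * ((P.K : ℤ) * P.Q) - 2 * (o * v.w) + 2 * ra - 2 * v.z +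
      2 * v.X - (2 * v.c + 2 * P.K + 60)) hs1 hmo (by nlinarith)
  nlinarith

end Pool.Agent.OCN.YC
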