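import Pool.Agent.Lib_helper28.OCN.YcZ4

/-!
# MP_aeb124_co: number game, the entrance into the states without conversions
-/

set_option autoImplicit false

namespace Pool.Agent.OCN.YC

variable {W nl Q R0 f : ℕ}

/-- the big budget controls `o` -/
theorem Z_big {E o d x y : ℕ} {i l : ℤ} (ho : 1 ≤ o) (hi : i ≤ 2 * o + 2) (hl : 0 ≤ l)
    (h : 16 * ((kap Q R0 + 7 : ℕ) : ℤ) * o + l + 2 * x ≤ pz f E o d x y + i) :
    2 * E + 2 * f + 16 * (kap Q R0 + 7) ≤ o + 4 := by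
  unfold pz at h
  have h2 : (0 : ℤ) ≤ d := Int.natCast_nonneg d
  have h3 : (0 : ℤ) ≤ x := Int.natCast_nonneg x
  have h4 : (0 : ℤ) ≤ y := Int.natCast_nonneg y
  have h5 : (1 : ℤ) ≤ o := by exact_mod_cast ho
  by_contra hcon
  rw [not_le] at hcon
  have h6 : (o : ℤ) + 5 ≤ 2 * E + 2 * f + 16 * ((kap Q R0 + 7 : ℕ) : ℤ) := by exact_mod_cast hcon
  have h7 : (o : ℤ) * (o + 5) ≤ o * (2 * E + 2 * f + 16 * ((kap Q R0 + 7 : ℕ) : ℤ)) :=
    mul_le_mul_of_nonneg_left h6 (by linarith)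
  nlinarith

theorem Z_bz {E o k : ℕ} (ho : o ≤ Q) (hk : k ≤ kap Q R0) :
    bz Q R0 E o k ≤ kK Q R0 * o + 2 * (Q * kap Q R0 : ℕ) := by
  unfold bz
  have h5 : (o : ℤ) * k ≤ Q * kap Q R0 :=
    mul_le_mul (by exact_mod_cast ho) (by exact_mod_cast hk) (Int.natCast_nonneg _)
      (Int.natCast_nonneg _)
  push_cast
  split_ifs <;> linarith

/-- the entrance, no window, with the money `I` -/
theorem Z_in (hR : 1 ≤ R0) (hf : f ≤ nl) {o r u μ ν cb I : ℕ} {β : Multiset ℕ}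
    (hE : W - u ≤ μ) (hQ : o ≤ Q) (hF : ∀ j ∈ β, j ≤ f + kap Q R0 + 15) (hI : I ≤ o + 1)
    (hP : 16 * ((kap Q R0 + 7 : ℕ) : ℤ) * o + 2 * (Q * kap Q R0 : ℕ) + 2 * ex f β ≤
      pz f (W - u) o 0 (ex f β) 0 + 2 * I) :
    ∃ σ'' c, Pays ⟨o, 0, r, u, μ, ν, cb, β⟩ σ'' c ∧ c ≤ I ∧
      (ZS W Q R0 f σ'' ∨ Ex W nl σ'') := by
  rcases Nat.eq_zero_or_pos o with rfl | ho
  · exact ⟨_, 0, Pays.refl _, Nat.zero_le _, Or.inr (Or.inl rfl)⟩
  have hIz : (I : ℤ) ≤ o + 1 := by exact_mod_cast hI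
  have h1 : 2 * (W - u) + 2 * f + 16 * (kap Q R0 + 7) ≤ o + 4 :=
    Z_big (i := 2 * (I : ℤ)) (l := 2 * ((Q * kap Q R0 : ℕ) : ℤ)) ho (by linarith)
      (by positivity) hP
  have hIp : (0 : ℤ) ≤ I := Int.natCast_nonneg _
  have hx : (0 : ℤ) ≤ ex f β := Int.natCast_nonneg _
  have hkp : (0 : ℤ) ≤ kap Q R0 := Int.natCast_nonneg _
  have hop : (0 : ℤ) ≤ o := Int.natCast_nonneg _
  have hko : (0 : ℤ) ≤ (kap Q R0 : ℤ) * o := mul_nonneg hkp hop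
  have hQk : (0 : ℤ) ≤ ((Q * kap Q R0 : ℕ) : ℤ) := Int.natCast_nonneg _
  refine Z_closed (W := W) (Q := Q) (F := f + kap Q R0 + 15) hR hf hE hQ hF hI
    (Or.inr ⟨by omega, ?_⟩) ?_
  · by_cases h2 : ex f β ≤ I
    · rw [Nat.sub_eq_zero_of_le h2]
      exact Nat.zero_le _
    · have h3 : ((ex f β - I : ℕ) : ℤ) = ex f β - I := by rw [Nat.cast_sub (not_le.1 h2).le]
      have h4 : ((o - (2 * (f + kap Q R0 + 15) + 2) : ℕ) : ℤ) =
          o - (2 * (f + kap Q R0 + 15) + 2) := by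
        rw [Nat.cast_sub (by omega)]
        push_cast
        ring
      have h5 : ((4 * (ex f β - I) : ℕ) : ℤ) ≤ (o * (o - (2 * (f + kap Q R0 + 15) + 2)) : ℕ) := by
        rw [Nat.cast_mul, Nat.cast_mul, h3, h4]
        unfold pz at hP
        have h6 : (0 : ℤ) ≤ (o : ℤ) * (W - u : ℕ) := mul_nonneg hop (Int.natCast_nonneg _)
        push_cast at hP ⊢
        nlinarith
      exact_mod_cast h5
  · refine (Z_bz hQ (Nat.zero_le _)).trans ?_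
    refine le_trans ?_ hP
    have h2 : (kK Q R0 : ℤ) = 4 * kap Q R0 + 44 := by
      unfold kK
      push_cast
      ring
    rw [h2]
    push_cast
    nlinarith

/-- the entrance, window, with the money `I` of an attack -/
theorem Z_win (hR : 1 ≤ R0) (hf : f ≤ nl) {o a r u μ ν cb I : ℕ} {β : Multiset ℕ}
    (hE : W - u ≤ μ) (hQ : o ≤ Q) (hF : ∀ j ∈ β, j ≤ f + kap Q R0 + 15) (r1 : 1 ≤ r)
    (n1 : ν ≤ 1) (ra : r * a ≤ o + 1) (rk : r + kc Q R0 r a ≤ kap Q R0 + 1)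
    (n0 : ν = 0 → r * a + f + 2 * kap Q R0 + 25 ≤ o + 1 ∨ o ≤ I + (f + kap Q R0 + 15))
    (lg : 1 ≤ cb → r = 1 ∧ ν = 1 ∧ cb ≤ f + kap Q R0 + 15 ∧ a + f + 2 * kap Q R0 + 25 ≤ o + 1)
    (hI : I ≤ o + 1) (hI2 : o + 2 * r ≤ 2 * I)
    (hP : 16 * ((kap Q R0 + 7 : ℕ) : ℤ) * o + (2 * (Q * kap Q R0 : ℕ) + 2 * (Q : ℤ)) +
      2 * ex f β ≤ pz f (W - u) o (r * a) (ex f β) (cb - f) + 2 * I) :
    ∃ σ'' c, Pays ⟨o, a, r, u, μ, ν, cb, β⟩ σ'' c ∧ c ≤ I ∧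
      (ZS W Q R0 f σ'' ∨ Ex W nl σ'') := by
  rcases Nat.eq_zero_or_pos o with rfl | ho
  · exact ⟨_, 0, Pays.refl _, Nat.zero_le _, Or.inr (Or.inl rfl)⟩
  have hIz : (I : ℤ) ≤ o + 1 := by exact_mod_cast hI
  have h1 : 2 * (W - u) + 2 * f + 16 * (kap Q R0 + 7) ≤ o + 4 :=
    Z_big (i := 2 * (I : ℤ)) (l := 2 * ((Q * kap Q R0 : ℕ) : ℤ) + 2 * (Q : ℤ)) ho (by linarith)
      (by positivity) hP
  have hIp : (0 : ℤ) ≤ I := Int.natCast_nonneg _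
  have hx : (0 : ℤ) ≤ ex f β := Int.natCast_nonneg _
  have hkp : (0 : ℤ) ≤ kap Q R0 := Int.natCast_nonneg _
  have hop : (1 : ℤ) ≤ o := by exact_mod_cast ho
  have hop0 : (0 : ℤ) ≤ o := Int.natCast_nonneg _
  have hko : (kap Q R0 : ℤ) * 1 ≤ (kap Q R0 : ℤ) * o := mul_le_mul_of_nonneg_left hop hkp
  have hQk : (0 : ℤ) ≤ ((Q * kap Q R0 : ℕ) : ℤ) := Int.natCast_nonneg _
  have hQ0 : (0 : ℤ) ≤ Q := Int.natCast_nonneg _
  refine Z_window (W := W) (Q := Q) (F := f + kap Q R0 + 15) (t := 5) (w := kc Q R0 r a + 5)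
    hR hf hE hQ hF le_rfl r1 n1 ra (by omega) (by omega) (by omega) ?_ (fun _ => by omega)
    (fun h2 => ?_) (fun h2 => ?_) hI hI2 ?_
  · obtain ⟨s, hs⟩ : ∃ s, s = kc Q R0 r a + 4 := ⟨_, rfl⟩
    have h2 : o + 1 - (kc Q R0 r a + 5) = o - s := by omega
    rw [h2]
    have hs1 : s ≤ kap Q R0 + 4 := by omega
    have h4 : ((o - s - (2 * (f + kap Q R0 + 15) + 2) : ℕ) : ℤ) =
        o - s - (2 * (f + kap Q R0 + 15) + 2) := by
      rw [Nat.cast_sub (by omega), Nat.cast_sub (by omega)]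
      push_cast
      ring
    have h3 : ((o - s : ℕ) : ℤ) = o - s := by rw [Nat.cast_sub (by omega)]
    have h5 : ((4 * ex f β : ℕ) : ℤ) ≤
        ((o - s) * (o - s - (2 * (f + kap Q R0 + 15) + 2)) : ℕ) := by
      rw [Nat.cast_mul, Nat.cast_mul, h3, h4]
      unfold pz at hP
      have h6 : (0 : ℤ) ≤ (o : ℤ) * (W - u : ℕ) := mul_nonneg hop0 (Int.natCast_nonneg _)
      have h7 : (0 : ℤ) ≤ ((r * a : ℕ) : ℤ) := Int.natCast_nonneg _
      have h8 : (0 : ℤ) ≤ ((cb - f : ℕ) : ℤ) := Int.natCast_nonneg _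
      have h9 : (s : ℤ) ≤ kap Q R0 + 4 := by exact_mod_cast hs1
      have h10 : (o : ℤ) * s ≤ o * (kap Q R0 + 4) := mul_le_mul_of_nonneg_left h9 hop0
      have h11 : (0 : ℤ) ≤ (s : ℤ) * (s + (2 * (f + kap Q R0 + 15) + 2)) := by positivity
      push_cast at hP ⊢
      nlinarith
    exact_mod_cast h5
  · rcases n0 h2 with h3 | h3
    · left
      omega
    · right
      exact h3
  · obtain ⟨h3, h4, h5, h6⟩ := lg h2
    refine ⟨h3, h4, h5, by omega, by omega, ?_⟩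
    show 2 * a ≤ (5 - 3) * (o + 1 - (kc Q R0 r a + 5))
    omega
  · have h2 : (kK Q R0 : ℤ) = 4 * kap Q R0 + 44 := by
      unfold kK
      push_cast
      ring
    have h3 := Z_bz (Q := Q) (R0 := R0) (E := W - u) (k := kc Q R0 r a) hQ (by omega)
    have h4 : (if 1 ≤ cb ∧ cb < a then 2 * (Q : ℤ) else 0) ≤ 2 * (Q : ℤ) := by
      split_ifs
      · exact le_rfl
      · linarith
    rw [h2] at h3
    refine le_trans ?_ hP
    push_cast at h3 ⊢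
    nlinarith

/-- the entrance, window at rest -/
theorem Z_rest {o a r u μ ν cb : ℕ} {β : Multiset ℕ}
    (hE : W - u ≤ μ) (hQ : o ≤ Q) (hF : ∀ j ∈ β, j ≤ f + kap Q R0 + 15) (a1 : 1 ≤ a)
    (r1 : 1 ≤ r) (n1 : ν ≤ 1) (ra : r * a ≤ o) (rk : r + kc Q R0 r a ≤ kap Q R0 + 1)
    (n0 : ν = 0 → r * a + f + 2 * kap Q R0 + 25 ≤ o)
    (lg : 1 ≤ cb → r = 1 ∧ ν = 1 ∧ cb ≤ f + kap Q R0 + 15 ∧ cb ≤ a ∧
      a + f + 2 * kap Q R0 + 25 ≤ o)
    (hP : 16 * ((kap Q R0 + 7 : ℕ) : ℤ) * o + (2 * (Q * kap Q R0 : ℕ) + 2 * (Q : ℤ)) +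
      2 * ex f β ≤ pz f (W - u) o (r * a) (ex f β) (cb - f)) :
    ZS W Q R0 f ⟨o, a, r, u, μ, ν, cb, β⟩ := by
  have hra1 : 1 ≤ r * a := Nat.mul_pos r1 a1
  have ho : 1 ≤ o := hra1.trans ra
  have h1 : 2 * (W - u) + 2 * f + 16 * (kap Q R0 + 7) ≤ o + 4 :=
    Z_big (i := 0) (l := 2 * ((Q * kap Q R0 : ℕ) : ℤ) + 2 * (Q : ℤ)) ho (by positivity)
      (by positivity) (by rw [add_zero]; exact hP)
  have hx : (0 : ℤ) ≤ ex f β := Int.natCast_nonneg _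
  have hkp : (0 : ℤ) ≤ kap Q R0 := Int.natCast_nonneg _
  have hop : (1 : ℤ) ≤ o := by exact_mod_cast ho
  have hop0 : (0 : ℤ) ≤ o := Int.natCast_nonneg _
  have hko : (kap Q R0 : ℤ) * 1 ≤ (kap Q R0 : ℤ) * o := mul_le_mul_of_nonneg_left hop hkp
  have hQk : (0 : ℤ) ≤ ((Q * kap Q R0 : ℕ) : ℤ) := Int.natCast_nonneg _
  have hQ0 : (0 : ℤ) ≤ Q := Int.natCast_nonneg _
  refine Or.inr ⟨f + kap Q R0 + 15, 5, kc Q R0 r a + 5, ?_⟩
  refine
    { hE := hE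
      hQ := hQ
      hF := hF
      hw := le_rfl
      a1 := a1
      r1 := r1
      ra := ra
      n1 := n1
      mg := by
        show 2 * (f + kap Q R0 + 15) + 2 + 4 * (kc Q R0 r a + 5) + 2 * r ≤ o
        omega
      rw := by
        show r + (kc Q R0 r a + 5) ≤ kap Q R0 + 7
        omega
      gx := ?_
      sh := fun _ => by
        show 2 * (r * a) ≤ 5 * (o - (kc Q R0 r a + 5))
        omega
      n0 := fun h2 => by
        have := n0 h2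
        show r * a + (f + kap Q R0 + 15) + 2 + (kc Q R0 r a + 5) ≤ o
        omega
      lg := fun h2 => by
        obtain ⟨h3, h4, h5, h6, h7⟩ := lg h2
        have h8 : (r : ℕ) = 1 := h3
        refine ⟨h3, h4, h5, h6, ?_, by omega, ?_⟩
        · show a + (f + kap Q R0 + 15) + 2 + (kc Q R0 r a + 5) ≤ o
          omega
        · show 2 * a ≤ (5 - 3) * (o - (kc Q R0 r a + 5))
          omega
      hP := ?_ }
  · show 4 * ex f β ≤ (o - (kc Q R0 r a + 5)) *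
      (o - (kc Q R0 r a + 5) - (2 * (f + kap Q R0 + 15) + 2))
    obtain ⟨s, hs⟩ : ∃ s, s = kc Q R0 r a + 5 := ⟨_, rfl⟩
    rw [← hs]
    have hs1 : s ≤ kap Q R0 + 5 := by omega
    have h4 : ((o - s - (2 * (f + kap Q R0 + 15) + 2) : ℕ) : ℤ) =
        o - s - (2 * (f + kap Q R0 + 15) + 2) := by
      rw [Nat.cast_sub (by omega), Nat.cast_sub (by omega)]
      push_cast
      ring
    have h3 : ((o - s : ℕ) : ℤ) = o - s := by rw [Nat.cast_sub (by omega)]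
    have h5 : ((4 * ex f β : ℕ) : ℤ) ≤
        ((o - s) * (o - s - (2 * (f + kap Q R0 + 15) + 2)) : ℕ) := by
      rw [Nat.cast_mul, Nat.cast_mul, h3, h4]
      unfold pz at hP
      have h6 : (0 : ℤ) ≤ (o : ℤ) * (W - u : ℕ) := mul_nonneg hop0 (Int.natCast_nonneg _)
      have h7 : (0 : ℤ) ≤ ((r * a : ℕ) : ℤ) := Int.natCast_nonneg _
      have h8 : (0 : ℤ) ≤ ((cb - f : ℕ) : ℤ) := Int.natCast_nonneg _
      have h9 : (s : ℤ) ≤ kap Q R0 + 5 := by exact_mod_cast hs1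
      have h10 : (o : ℤ) * s ≤ o * (kap Q R0 + 5) := mul_le_mul_of_nonneg_left h9 hop0
      have h11 : (0 : ℤ) ≤ (s : ℤ) * (s + (2 * (f + kap Q R0 + 15) + 2)) := by positivity
      push_cast at hP ⊢
      nlinarith
    exact_mod_cast h5
  · show bz Q R0 (W - u) o (kc Q R0 r a) + (if 1 ≤ cb ∧ cb < a then 2 * (Q : ℤ) else 0) ≤
      pz f (W - u) o (r * a) (ex f β) (cb - f)
    have h2 : (kK Q R0 : ℤ) = 4 * kap Q R0 + 44 := by
      unfold kK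
      push_cast
      ring
    have h3 := Z_bz (Q := Q) (R0 := R0) (E := W - u) (k := kc Q R0 r a) hQ (by omega)
    have h4 : (if 1 ≤ cb ∧ cb < a then 2 * (Q : ℤ) else 0) ≤ 2 * (Q : ℤ) := by
      split_ifs
      · exact le_rfl
      · linarith
    rw [h2] at h3
    refine le_trans ?_ hP
    push_cast at h3 ⊢
    nlinarith

end Pool.Agent.OCN.YC
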