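import Pool.Agent.Lib_helper68.OCN.YcJ0
import Pool.Agent.Lib_helper28.OCN.YcZ5

/-!
# MP_aeb124_co: number game, class Z with money
-/

set_option autoImplicit false

namespace Pool.Agent.OCN.YC

theorem kap_ge (Q R0 : ℕ) : R0 + 1 ≤ kap Q R0 := by
  unfold kap
  exact Nat.add_le_add_right (Nat.le_add_right _ _) 1

theorem K_ge (P : Par) : 50 ≤ P.K := by
  have h1 := kap_ge P.Q P.R0
  have h2 := P.hR
  have h3 := P.hK
  omega

/-- the potential of class Z with money controls `o` -/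
theorem ZJ_big {P : Par} {φ E o d x I : ℕ} (ho : 1 ≤ o) (hI : I ≤ o + 1)
    (h : 16 * ((P.K : ℤ) * o) + 40 * ((P.K : ℤ) * P.Q) ≤ pz φ E o d x 0 + 2 * I) :
    2 * E + 2 * φ + 16 * P.K ≤ o + 4 := by
  unfold pz at h
  have h2 : (0 : ℤ) ≤ d := Int.natCast_nonneg d
  have h3 : (0 : ℤ) ≤ x := Int.natCast_nonneg x
  have h5 : (1 : ℤ) ≤ o := by exact_mod_cast ho
  have h8 : (I : ℤ) ≤ o + 1 := by exact_mod_cast hI
  have h9 : (0 : ℤ) ≤ (P.K : ℤ) * P.Q := by positivity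
  by_contra hcon
  rw [not_le] at hcon
  have h6 : (o : ℤ) + 5 ≤ 2 * E + 2 * φ + 16 * P.K := by exact_mod_cast hcon
  have h7 : (o : ℤ) * (o + 5) ≤ o * (2 * E + 2 * φ + 16 * P.K) :=
    mul_le_mul_of_nonneg_left h6 (by linarith)
  rw [Nat.cast_zero] at h
  linarith

/-- closed windows -/
theorem ZJ_closed {P : Par} {φ F o r u μ ν cb I c : ℕ} {β : Multiset ℕ} (hφ : φ ≤ P.nl)
    (hW : P.W ≤ u + μ) (hQ : o ≤ P.Q) (hI : I ≤ o + 1) (hc : c ≤ I) (hF : ∀ j ∈ β, j ≤ F)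
    (hFK : F ≤ φ + P.K + 15) (hx : ex φ β ≤ I + 20 * (P.K * P.Q))
    (hP : 16 * ((P.K : ℤ) * o) + 40 * ((P.K : ℤ) * P.Q) ≤
      pz φ (P.W - u) o c (ex φ β) 0 + 2 * I) :
    ∃ σ'' c', Pays ⟨o, 0, r, u, μ, ν, cb, β⟩ σ'' c' ∧ c' + c ≤ I ∧
      (ZR P σ'' ∨ Ex P.W P.nl σ'') := by
  rcases Nat.eq_zero_or_pos o with rfl | ho
  · exact ⟨_, 0, Pays.refl _, by omega, Or.inr (Or.inl rfl)⟩
  have h1 := ZJ_big ho hI hP
  have hR := P.hR
  have hK := P.hK
  have hKQ := P.hKQ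
  have hkap : kap P.Q P.R0 ≤ P.K := by omega
  have hkapz : (kap P.Q P.R0 : ℤ) + 11 ≤ P.K := by exact_mod_cast hK
  have hop : (1 : ℤ) ≤ o := by exact_mod_cast ho
  have hoQ : (o : ℤ) ≤ P.Q := by exact_mod_cast hQ
  have hIz : (I : ℤ) ≤ o + 1 := by exact_mod_cast hI
  have hcz : (c : ℤ) ≤ I := by exact_mod_cast hc
  have hK50 : (50 : ℤ) ≤ P.K := by exact_mod_cast K_ge P
  have hKo : (50 : ℤ) * o ≤ P.K * o := mul_le_mul_of_nonneg_right hK50 (by linarith)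
  have hKQ0 : (0 : ℤ) ≤ (P.K : ℤ) * P.Q := by positivity
  have hx1 : 4 * (ex φ β - (I - c)) ≤ o * (o - (2 * F + 2)) := by
    by_cases h2 : ex φ β ≤ I - c
    · rw [Nat.sub_eq_zero_of_le h2]
      exact Nat.zero_le _
    · have h3 : ((ex φ β - (I - c) : ℕ) : ℤ) = ex φ β - (I - c) := by
        rw [Nat.cast_sub (not_le.1 h2).le, Nat.cast_sub hc]
      have h4 : ((o - (2 * F + 2) : ℕ) : ℤ) = o - (2 * F + 2) := by
        rw [Nat.cast_sub (by omega)]
        push_cast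
        ring
      have h5 : ((4 * (ex φ β - (I - c)) : ℕ) : ℤ) ≤ (o * (o - (2 * F + 2)) : ℕ) := by
        rw [Nat.cast_mul, Nat.cast_mul, h3, h4]
        unfold pz at hP
        have h6 : (0 : ℤ) ≤ (o : ℤ) * (P.W - u : ℕ) :=
          mul_nonneg (by linarith) (Int.natCast_nonneg _)
        have h7 : (ex φ β : ℤ) ≤ I + 20 * ((P.K : ℤ) * P.Q) := by exact_mod_cast hx
        have h8 : (F : ℤ) ≤ φ + P.K + 15 := by exact_mod_cast hFK
        have h9 : (o : ℤ) * F ≤ o * (φ + P.K + 15) := mul_le_mul_of_nonneg_left h8 (by linarith)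
        push_cast at hP ⊢
        nlinarith
      exact_mod_cast h5
  have hP1 : bz P.Q P.R0 (P.W - u) o 0 ≤
      pz φ (P.W - u) o 0 (ex φ β) 0 + 2 * ((I - c : ℕ) : ℤ) := by
    have h3 := Z_bz (Q := P.Q) (R0 := P.R0) (E := P.W - u) (k := 0) hQ (Nat.zero_le _)
    have h2 : (kK P.Q P.R0 : ℤ) = 4 * kap P.Q P.R0 + 44 := by
      unfold kK
      push_cast
      ring
    rw [h2] at h3
    have h5 : ((I - c : ℕ) : ℤ) = I - c := by rw [Nat.cast_sub hc]
    have h6 : ((P.Q * kap P.Q P.R0 : ℕ) : ℤ) ≤ P.K * P.Q := by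
      have : P.Q * kap P.Q P.R0 ≤ P.K * P.Q := by
        rw [mul_comm P.K]
        exact Nat.mul_le_mul_left _ hkap
      exact_mod_cast this
    have h7 : (kap P.Q P.R0 : ℤ) * o ≤ (P.K - 11) * o :=
      mul_le_mul_of_nonneg_right (by linarith) (by linarith)
    refine h3.trans ?_
    unfold pz at hP ⊢
    rw [h5]
    rw [Nat.cast_zero] at hP ⊢
    nlinarith
  obtain ⟨σ'', c', h2, h3, h4⟩ := Z_closed (W := P.W) (Q := P.Q) (R0 := P.R0) (nl := P.nl)
    (f := φ) (by omega) hφ (o := o) (r := r) (u := u) (μ := μ) (ν := ν) (cb := cb) (F := F)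
    (I := I - c) (β := β) (by omega) hQ hF (by omega) (Or.inr ⟨by omega, hx1⟩) hP1
  refine ⟨σ'', c', h2, by omega, ?_⟩
  rcases h4 with h5 | h5
  · exact Or.inl ⟨φ, hφ, h5⟩
  · exact Or.inr h5

/-- the excess in a window of class Z -/
theorem ZJ_gx {P : Par} {φ F E o d x I s : ℕ} (hQ : 1 ≤ o) (hI : I ≤ o + 1)
    (hs : s ≤ P.K) (h1 : 2 * E + 2 * φ + 16 * P.K ≤ o + 4)
    (hFK : F ≤ φ + P.K + 15) (hx : x ≤ I + 20 * (P.K * P.Q))
    (hP : 16 * ((P.K : ℤ) * o) + 40 * ((P.K : ℤ) * P.Q) ≤ pz φ E o d x 0 + 2 * I) :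
    4 * x ≤ (o - s) * (o - s - (2 * F + 2)) := by
  have hK := K_ge P
  have hK50 : (50 : ℤ) ≤ P.K := by exact_mod_cast hK
  have hop : (1 : ℤ) ≤ o := by exact_mod_cast hQ
  have hKo : (50 : ℤ) * o ≤ P.K * o := mul_le_mul_of_nonneg_right hK50 (by linarith)
  have h3 : ((o - s : ℕ) : ℤ) = o - s := by rw [Nat.cast_sub (by omega)]
  have h4 : ((o - s - (2 * F + 2) : ℕ) : ℤ) = o - s - (2 * F + 2) := by
    rw [Nat.cast_sub (by omega), Nat.cast_sub (by omega)]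
    push_cast
    ring
  have h5 : ((4 * x : ℕ) : ℤ) ≤ ((o - s) * (o - s - (2 * F + 2)) : ℕ) := by
    rw [Nat.cast_mul, Nat.cast_mul, h3, h4]
    unfold pz at hP
    have h6 : (0 : ℤ) ≤ (o : ℤ) * E := by positivity
    have h7 : (x : ℤ) ≤ I + 20 * ((P.K : ℤ) * P.Q) := by exact_mod_cast hx
    have h8 : (F : ℤ) ≤ φ + P.K + 15 := by exact_mod_cast hFK
    have h9 : (o : ℤ) * F ≤ o * (φ + P.K + 15) := mul_le_mul_of_nonneg_left h8 (by linarith)
    have h10 : (s : ℤ) ≤ P.K := by exact_mod_cast hs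
    have h11 : (o : ℤ) * s ≤ o * P.K := mul_le_mul_of_nonneg_left h10 (by linarith)
    have h12 : (0 : ℤ) ≤ (s : ℤ) * (s + (2 * F + 2)) := by positivity
    have h13 : (0 : ℤ) ≤ (d : ℤ) := Int.natCast_nonneg _
    have h14 : (I : ℤ) ≤ o + 1 := by exact_mod_cast hI
    push_cast at hP ⊢
    nlinarith
  exact_mod_cast h5

/-- class Z with money -/
theorem zj_good {P : Par} {σ : St} {I : ℕ} (h : ZJ P σ I) :
    ∃ σ'' c, Pays σ σ'' c ∧ c ≤ I ∧ (ZR P σ'' ∨ Ex P.W P.nl σ'') := by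
  obtain ⟨o, a, r, u, μ, ν, cb, β⟩ := σ
  obtain ⟨φ, F, hφ, hW, hQ, hI, hF, hFK, hx, hP, hcase⟩ := h
  dsimp only at hW hQ hI hF hx hP hcase
  have hR := P.hR
  have hK := P.hK
  have hKQ := P.hKQ
  have hK50 := K_ge P
  have hK50z : (50 : ℤ) ≤ P.K := by exact_mod_cast hK50
  have hkapz : (kap P.Q P.R0 : ℤ) + 11 ≤ P.K := by exact_mod_cast hK
  rcases Nat.eq_zero_or_pos o with rfl | ho
  · exact ⟨_, 0, Pays.refl _, Nat.zero_le _, Or.inr (Or.inl rfl)⟩
  have h1 := ZJ_big ho hI hP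
  have hop : (1 : ℤ) ≤ o := by exact_mod_cast ho
  have hKo : (50 : ℤ) * o ≤ P.K * o := mul_le_mul_of_nonneg_right hK50z (by linarith)
  have hko : (kap P.Q P.R0 : ℤ) * o ≤ (P.K - 11) * o :=
    mul_le_mul_of_nonneg_right (by linarith) (by linarith)
  have hQ1 : (1 : ℤ) ≤ P.Q := by exact_mod_cast (ho.trans_le hQ)
  have hoQ : (o : ℤ) ≤ P.Q := by exact_mod_cast hQ
  have hKQ0 : (50 : ℤ) * P.Q ≤ (P.K : ℤ) * P.Q := mul_le_mul_of_nonneg_right hK50z (by linarith)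
  have hKK : (P.K : ℤ) * 1 ≤ (P.K : ℤ) * P.Q := mul_le_mul_of_nonneg_left hQ1 (by linarith)
  have hkk : (kK P.Q P.R0 : ℤ) = 4 * kap P.Q P.R0 + 44 := by
    unfold kK
    push_cast
    ring
  have hQk : ((P.Q * kap P.Q P.R0 : ℕ) : ℤ) ≤ P.K * P.Q := by
    have : P.Q * kap P.Q P.R0 ≤ P.K * P.Q := by
      rw [mul_comm P.K]
      exact Nat.mul_le_mul_left _ (by omega)
    exact_mod_cast this
  -- a closed window
  have hclo : ∀ (r' ν' cb' c : ℕ), Pays ⟨o, a, r, u, μ, ν, cb, β⟩ ⟨o, 0, r', u, μ, ν', cb', β⟩ c →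
      r * a = c → c ≤ I → ∃ σ'' c, Pays ⟨o, a, r, u, μ, ν, cb, β⟩ σ'' c ∧ c ≤ I ∧
        (ZR P σ'' ∨ Ex P.W P.nl σ'') := by
    intro r' ν' cb' c hp hrc hcI
    rw [hrc] at hP
    obtain ⟨σ'', c', h2, h3, h4⟩ := ZJ_closed (r := r') (ν := ν') (cb := cb') hφ hW hQ hI hcI hF
      hFK hx hP
    exact ⟨σ'', c + c', hp.trans h2, by omega, h4⟩
  rcases hcase with rfl | ⟨rfl, hν, k, ⟨hr1, hrk, hkc⟩, hwin⟩ | ⟨rfl, rfl, hWu, hcb1, hcbF, hcba, haF⟩
  · exact hclo r ν cb 0 (Pays.refl _) (mul_zero r) (Nat.zero_le _)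
  · -- short window
    obtain ⟨a', c, ha', hc, hac, hz, hp⟩ := pays_window o a r u μ ν 0 I β hr1
    rcases Nat.eq_zero_or_pos a' with rfl | ha1
    · exact hclo r ν 0 c hp (by rw [hac, mul_zero, zero_add]) hc
    have hcr : I < c + r := hz.resolve_left (by omega)
    have hra : r * a' ≤ o := by
      rcases hwin with h2 | h2
      · omega
      · omega
    have hk := hkc a' ha' (hra.trans hQ)
    refine ⟨_, c, hp, hc, Or.inl ⟨φ, hφ, Or.inr ⟨F, 5, kc P.Q P.R0 r a' + 5, ?_⟩⟩⟩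
    refine
      { hE := by show P.W - u ≤ μ; omega
        hQ := hQ
        hF := hF
        hw := le_rfl
        a1 := ha1
        r1 := hr1
        ra := hra
        n1 := hν
        mg := by
          show 2 * F + 2 + 4 * (kc P.Q P.R0 r a' + 5) + 2 * r ≤ o
          omega
        rw := by
          show r + (kc P.Q P.R0 r a' + 5) ≤ kap P.Q P.R0 + 7
          omega
        gx := ZJ_gx ho hI (by omega) h1 hFK hx hP
        sh := fun _ => by
          show 2 * (r * a') ≤ 5 * (o - (kc P.Q P.R0 r a' + 5))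
          omega
        n0 := fun h2 => by
          have h2' : ν = 0 := h2
          show r * a' + F + 2 + (kc P.Q P.R0 r a' + 5) ≤ o
          rcases hwin with h3 | h3
          · omega
          · omega
        lg := fun h2 => absurd h2 (Nat.not_succ_le_zero 0)
        hP := ?_ }
    show bz P.Q P.R0 (P.W - u) o (kc P.Q P.R0 r a') +
      (if 1 ≤ 0 ∧ 0 < a' then 2 * (P.Q : ℤ) else 0) ≤
      pz φ (P.W - u) o (r * a') (ex φ β) (0 - φ)
    rw [if_neg (by omega), add_zero, Nat.zero_sub]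
    have h2 := Z_bz (Q := P.Q) (R0 := P.R0) (E := P.W - u) (k := kc P.Q P.R0 r a') hQ (by omega)
    rw [hkk] at h2
    refine h2.trans ?_
    have h3 : ((r * a : ℕ) : ℤ) = (r * a' : ℕ) + (c : ℕ) := by rw [hac, Nat.cast_add]
    have h4 : (I : ℤ) + 1 ≤ c + r := by exact_mod_cast hcr
    have h5 : (r : ℤ) ≤ P.K := by
      have : r ≤ P.K := by omega
      exact_mod_cast this
    unfold pz at hP ⊢
    rw [h3] at hP
    nlinarith
  · -- long window
    rw [one_mul] at hP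
    by_cases haI : a ≤ I
    · exact hclo 0 0 0 a ((pays_close o a 1 u μ 1 cb 0 0 β).eq (one_mul a)) (one_mul a) haI
    rw [not_le] at haI
    have hcba' : cb ≤ a := hcba.resolve_right (by omega)
    obtain ⟨k, hk1, hk2, hk3⟩ : ∃ k, k ≤ I ∧ cb + k ≤ a ∧ (k = I ∨ cb + k = a) := by
      by_cases h : cb + I ≤ a
      · exact ⟨I, le_rfl, h, Or.inl rfl⟩
      · exact ⟨a - cb, by omega, by omega, Or.inr (by omega)⟩
    have hp := pays_one o (a - k) 1 u μ 1 cb k β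
    rw [Nat.sub_add_cancel (by omega), one_mul] at hp
    have haQ : 1 * (a - k) ≤ P.Q := by omega
    have hkc1 := kc_le (Q := P.Q) (R0 := P.R0) (r := 1) (a := a - k) (by omega) haQ
    have hko1 : a - k + F + 2 + (kc P.Q P.R0 1 (a - k) + 5) ≤ o := by omega
    refine ⟨_, k, hp, hk1, Or.inl ⟨φ, hφ, Or.inr ⟨F, 5, kc P.Q P.R0 1 (a - k) + 5, ?_⟩⟩⟩
    refine
      { hE := by show P.W - u ≤ μ; omega
        hQ := hQ
        hF := hF
        hw := le_rfl
        a1 := by show 1 ≤ a - k; omega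
        r1 := le_rfl
        ra := by show 1 * (a - k) ≤ o; omega
        n1 := le_rfl
        mg := by
          show 2 * F + 2 + 4 * (kc P.Q P.R0 1 (a - k) + 5) + 2 * 1 ≤ o
          omega
        rw := by
          show 1 + (kc P.Q P.R0 1 (a - k) + 5) ≤ kap P.Q P.R0 + 7
          omega
        gx := ZJ_gx ho hI (by omega) h1 hFK hx hP
        sh := fun h2 => absurd h2 (Nat.pos_iff_ne_zero.1 hcb1)
        n0 := fun h2 => absurd h2 one_ne_zero
        lg := fun _ => ⟨rfl, rfl, hcbF, by show cb ≤ a - k; omega, hko1, by omega, by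
          show 2 * (a - k) ≤ (5 - 3) * (o - (kc P.Q P.R0 1 (a - k) + 5))
          omega⟩
        hP := ?_ }
    show bz P.Q P.R0 (P.W - u) o (kc P.Q P.R0 1 (a - k)) +
      (if 1 ≤ cb ∧ cb < a - k then 2 * (P.Q : ℤ) else 0) ≤
      pz φ (P.W - u) o (1 * (a - k)) (ex φ β) (cb - φ)
    have h2 := Z_bz (Q := P.Q) (R0 := P.R0) (E := P.W - u) (k := kc P.Q P.R0 1 (a - k)) hQ hkc1
    rw [hkk] at h2
    have h3 : (if 1 ≤ cb ∧ cb < a - k then 2 * (P.Q : ℤ) else 0) ≤ 2 * (P.Q : ℤ) := by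
      split_ifs
      · exact le_rfl
      · linarith
    have h4 : ((a - k : ℕ) : ℤ) = a - k := by rw [Nat.cast_sub (by omega)]
    have h5 : ((cb - φ : ℕ) : ℤ) ≤ P.K + 15 := by
      have : cb - φ ≤ P.K + 15 := by omega
      exact_mod_cast this
    have h6 : (I : ℤ) ≤ k + P.Q := by
      have : I ≤ k + P.Q := by
        rcases hk3 with h7 | h7
        · omega
        · omega
      exact_mod_cast this
    refine (add_le_add h2 h3).trans ?_
    rw [one_mul]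
    unfold pz at hP ⊢
    rw [h4]
    rw [Nat.cast_zero] at hP
    nlinarith

end Pool.Agent.OCN.YC
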