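import Mathlib.Tactic.Linarith
import Mathlib.Tactic.Ring
import Mathlib.Tactic.Positivity
import Mathlib.Algebra.Order.Ring.Int

/-!
# MP_aeb124_co: number game, pure inequalities

`o` undecided elements, `m` conversions to come, `c` the largest deficit of the tops, `s` the level of
the survivors, `f` the target, `n` a lower bound for the number of survivors on the level `s`, `A` the
height of the survivors over `f - m`, `M` the height of the tops over `f - m`.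
-/

set_option autoImplicit false

namespace Pool.Agent.OCN.YA

/-- the quartic inequality, survivors not finished -/
theorem base_A {s g m D Z : ℤ} (hs : 0 ≤ s) (hm : 0 ≤ m) (hg : 0 ≤ g) (hD : 0 ≤ D)
    (hZ : 4 * s ^ 2 + 8 * (s * g) + 4 * (s * m) + 4 * (g * m) + 2 * m ^ 2 ≤ Z) :
    4 * s ^ 2 ≤ Z ∧ 16 * s ^ 2 * (s ^ 2 + 2 * m * (s + g + m - D)) ≤ Z ^ 2 := by
  have h1 : 0 ≤ s * m := mul_nonneg hs hm
  have h2 : 0 ≤ s * g := mul_nonneg hs hg
  have h3 : 0 ≤ g * m := mul_nonneg hg hm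
  have h4 : 0 ≤ m ^ 2 := sq_nonneg m
  have h5 : 0 ≤ s ^ 2 := sq_nonneg s
  refine ⟨by linarith, ?_⟩
  set P := 4 * s ^ 2 + 4 * (s * m) + 2 * m ^ 2 with hP
  set R := 8 * (s * g) + 4 * (g * m) with hR
  have hR0 : 0 ≤ R := by rw [hR]; linarith
  have hP0 : 0 ≤ P := by rw [hP]; linarith
  have hPs : 4 * s ^ 2 ≤ P := by rw [hP]; linarith
  have h6 : (P + R) ^ 2 ≤ Z ^ 2 := by
    have : P + R ≤ Z := by rw [hP, hR]; linarith
    exact pow_le_pow_left₀ (by linarith) this 2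
  have h7 : 4 * s ^ 2 * R ≤ P * R := mul_le_mul_of_nonneg_right hPs hR0
  have h8 : P ^ 2 + 8 * s ^ 2 * R ≤ (P + R) ^ 2 := by nlinarith [sq_nonneg R]
  have h9 : P ^ 2 + 8 * s ^ 2 * R - 16 * s ^ 2 * (s ^ 2 + 2 * m * (s + g + m - D)) =
      16 * (s * m) * m ^ 2 + 4 * m ^ 4 + 64 * (s ^ 2 * (s * g)) + 32 * (s ^ 2 * (m * D)) := by
    rw [hP, hR]; ring
  have h10 : 0 ≤ 16 * (s * m) * m ^ 2 + 4 * m ^ 4 + 64 * (s ^ 2 * (s * g)) +
      32 * (s ^ 2 * (m * D)) := by positivity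
  linarith

/-- the quartic inequality, survivors finished, tops not finished -/
theorem base_B {s g m D Z : ℤ} (hs : 0 ≤ s) (hm : 0 ≤ m) (hg : 0 ≤ g) (hD : 0 ≤ D)
    (hZ : 4 * s ^ 2 + 6 * m ^ 2 + 12 * (s * m) + 16 * (s * g) + 12 * (m * g) ≤ Z) :
    4 * s ^ 2 ≤ Z ∧ 16 * s ^ 2 * (s ^ 2 + 2 * m * (s + g + 2 * m - D)) ≤ Z ^ 2 := by
  have h1 : 0 ≤ s * m := mul_nonneg hs hm
  have h2 : 0 ≤ s * g := mul_nonneg hs hg
  have h3 : 0 ≤ m * g := mul_nonneg hm hg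
  have h4 : 0 ≤ m ^ 2 := sq_nonneg m
  have h5 : 0 ≤ s ^ 2 := sq_nonneg s
  refine ⟨by linarith, ?_⟩
  have h6 := pow_le_pow_left₀ (by positivity) hZ 2
  refine le_trans ?_ h6
  have h9 : (4 * s ^ 2 + 6 * m ^ 2 + 12 * (s * m) + 16 * (s * g) + 12 * (m * g)) ^ 2 -
      16 * s ^ 2 * (s ^ 2 + 2 * m * (s + g + 2 * m - D)) =
      (6 * m ^ 2 + 16 * (s * g) + 12 * (m * g)) ^ 2 +
      24 * (s * m) * (6 * m ^ 2 + 16 * (s * g) + 12 * (m * g)) + 128 * (s ^ 2 * m ^ 2) +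
      64 * (s ^ 2 * (s * m)) + 128 * (s ^ 2 * (s * g)) + 64 * (s ^ 2 * (m * g)) +
      32 * (s ^ 2 * (m * D)) := by ring
  have h10 : 0 ≤ (6 * m ^ 2 + 16 * (s * g) + 12 * (m * g)) ^ 2 +
      24 * (s * m) * (6 * m ^ 2 + 16 * (s * g) + 12 * (m * g)) + 128 * (s ^ 2 * m ^ 2) +
      64 * (s ^ 2 * (s * m)) + 128 * (s ^ 2 * (s * g)) + 64 * (s ^ 2 * (m * g)) +
      32 * (s ^ 2 * (m * D)) := by positivity
  linarith

/-- the quartic inequality, everything finished -/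
theorem base_C {s k m Z : ℤ} (hs : 0 ≤ s) (hm : 0 ≤ m) (hk : 0 ≤ k)
    (hZ : 4 * s ^ 2 + 16 * (s * k) + 12 * (m * s) + 12 * (m * k) + 10 * m ^ 2 ≤ Z) :
    4 * s ^ 2 ≤ Z ∧ 16 * s ^ 2 * (s ^ 2 + 2 * m * (s + k)) ≤ Z ^ 2 := by
  have h1 : 0 ≤ m * s := mul_nonneg hm hs
  have h2 : 0 ≤ s * k := mul_nonneg hs hk
  have h3 : 0 ≤ m * k := mul_nonneg hm hk
  have h4 : 0 ≤ m ^ 2 := sq_nonneg m
  have h5 : 0 ≤ s ^ 2 := sq_nonneg s
  refine ⟨by linarith, ?_⟩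
  have h6 := pow_le_pow_left₀ (by positivity) hZ 2
  refine le_trans ?_ h6
  have h9 : (4 * s ^ 2 + 16 * (s * k) + 12 * (m * s) + 12 * (m * k) + 10 * m ^ 2) ^ 2 -
      16 * s ^ 2 * (s ^ 2 + 2 * m * (s + k)) =
      (16 * (s * k) + 12 * (m * s) + 12 * (m * k) + 10 * m ^ 2) ^ 2 +
      128 * (s ^ 2 * (s * k)) + 64 * (s ^ 2 * (m * s)) + 64 * (s ^ 2 * (m * k)) +
      80 * (s ^ 2 * m ^ 2) := by ring
  have h10 : 0 ≤ (16 * (s * k) + 12 * (m * s) + 12 * (m * k) + 10 * m ^ 2) ^ 2 +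
      128 * (s ^ 2 * (s * k)) + 64 * (s ^ 2 * (m * s)) + 64 * (s ^ 2 * (m * k)) +
      80 * (s ^ 2 * m ^ 2) := by positivity
  linarith

/-- the quartic inequality: `Y` is twice the value which `V ≥ 0` gives for `o² - 2om` -/
theorem base {s f m c A M n Y : ℤ} (hs : 0 ≤ s) (hm : 0 ≤ m) (hsf : s ≤ f) (hsc : s ≤ c)
    (hc : c ≤ f + m) (hA0 : 0 ≤ A) (hA : s + m - f ≤ A) (hM0 : 0 ≤ M) (hM : c + m - f ≤ M)
    (hn : 2 * f ≤ n) (hY : 8 * f ^ 2 + 4 * (n * A) + M ^ 2 ≤ Y) :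
    4 * s ^ 2 ≤ Y + 2 * m ^ 2 - 4 * s ^ 2 - 4 * (m * c) ∧
      16 * s ^ 2 * (s ^ 2 + 2 * m * c) ≤ (Y + 2 * m ^ 2 - 4 * s ^ 2 - 4 * (m * c)) ^ 2 := by
  have hf : 0 ≤ f := by linarith
  by_cases h1 : f ≤ s + m
  · obtain ⟨g, hg⟩ : ∃ g, g = f - s := ⟨_, rfl⟩
    obtain ⟨D, hD⟩ : ∃ D, D = f + m - c := ⟨_, rfl⟩
    have hM2 : (c + m - f) ^ 2 ≤ M ^ 2 := pow_le_pow_left₀ (by linarith) hM 2
    have hnA : 2 * f * (s + m - f) ≤ n * A :=
      mul_le_mul hn hA (by linarith) (by linarith)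
    have h2 := base_A (s := s) (g := g) (m := m) (D := D)
      (Z := Y + 2 * m ^ 2 - 4 * s ^ 2 - 4 * (m * c)) hs hm (by linarith) (by linarith) (by
        have hf' : f = s + g := by linarith
        have hc' : c = s + g + m - D := by linarith
        rw [hf'] at hnA hY
        rw [hf', hc'] at hM2
        rw [hc']
        nlinarith [sq_nonneg D])
    have h3 : s + g + m - D = c := by linarith
    rw [h3] at h2
    exact h2
  · rw [not_le] at h1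
    have hnA : 0 ≤ n * A := mul_nonneg (by linarith) hA0
    by_cases h4 : f ≤ c + m
    · obtain ⟨g, hg⟩ : ∃ g, g = f - s - m := ⟨_, rfl⟩
      obtain ⟨D, hD⟩ : ∃ D, D = f + m - c := ⟨_, rfl⟩
      have hM2 : (c + m - f) ^ 2 ≤ M ^ 2 := pow_le_pow_left₀ (by linarith) hM 2
      have h2 := base_B (s := s) (g := g) (m := m) (D := D)
        (Z := Y + 2 * m ^ 2 - 4 * s ^ 2 - 4 * (m * c)) hs hm (by linarith) (by linarith) (by
          have hf' : f = s + m + g := by linarith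
          have hc' : c = s + g + 2 * m - D := by linarith
          rw [hf', hc'] at hM2
          rw [hf'] at hY
          rw [hc']
          nlinarith [sq_nonneg D, sq_nonneg g])
      have h3 : s + g + 2 * m - D = c := by linarith
      rw [h3] at h2
      exact h2
    · rw [not_le] at h4
      obtain ⟨k, hk⟩ : ∃ k, k = c - s := ⟨_, rfl⟩
      obtain ⟨h, hh⟩ : ∃ h, h = f - c - m := ⟨_, rfl⟩
      have h2 := base_C (s := s) (k := k) (m := m)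
        (Z := Y + 2 * m ^ 2 - 4 * s ^ 2 - 4 * (m * c)) hs hm (by linarith) (by
          have hc' : c = s + k := by linarith
          have hf' : f = s + k + m + h := by linarith
          have hh0 : 0 ≤ h := by linarith
          have hk0 : 0 ≤ k := by linarith
          have e1 : 0 ≤ h * (s + k + m) := mul_nonneg hh0 (by linarith)
          rw [hf'] at hY
          rw [hc']
          nlinarith [sq_nonneg h, sq_nonneg k, sq_nonneg M, mul_nonneg hs hk0,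
            mul_nonneg hm hk0, mul_nonneg hs hm])
      have h3 : s + k = c := by linarith
      rw [h3] at h2
      exact h2

/-- `V ≥ 0` implies `P + m² ≥ 0` before a conversion -/
theorem vp {o s f m c A M n Q : ℤ} (hs : 0 ≤ s) (hm : 0 ≤ m) (hsf : s ≤ f) (hsc : s ≤ c)
    (hc : c ≤ f + m) (hA0 : 0 ≤ A) (hA : s + m - f ≤ A) (hM0 : 0 ≤ M) (hM : c + m - f ≤ M)
    (hn : 2 * f ≤ n) (hQ : 0 ≤ Q) (hmo : m ≤ o)
    (hV : 8 * f ^ 2 + 4 * (n * A) + M ^ 2 + 4 * Q ≤ 2 * (o ^ 2 - 2 * (o * m))) :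
    Q ≤ o ^ 2 - 2 * (o * m) - 2 * (s * o) - 2 * (m * (c - s)) + m ^ 2 := by
  by_contra hcon
  rw [not_le] at hcon
  obtain ⟨h1, h2⟩ := base (Y := 8 * f ^ 2 + 4 * (n * A) + M ^ 2) hs hm hsf hsc hc hA0 hA hM0 hM hn
    le_rfl
  set Z := 8 * f ^ 2 + 4 * (n * A) + M ^ 2 + 2 * m ^ 2 - 4 * s ^ 2 - 4 * (m * c) with hZ
  obtain ⟨t, ht⟩ : ∃ t, t = o - m - s := ⟨_, rfl⟩
  have ho : o = t + m + s := by linarith
  have hnA : 0 ≤ n * A := mul_nonneg (by linarith) hA0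
  have hs2 : s ^ 2 ≤ f ^ 2 := pow_le_pow_left₀ hs hsf 2
  have ht0 : 0 ≤ t := by
    by_contra h3
    rw [not_le] at h3
    have h4 : 0 ≤ t + s := by linarith
    have h5 : (t + s) ^ 2 ≤ s ^ 2 := pow_le_pow_left₀ h4 (by linarith) 2
    have h6 : o ^ 2 - 2 * (o * m) = (t + s) ^ 2 - m ^ 2 := by rw [ho]; ring
    have h7 : 0 ≤ s ^ 2 := sq_nonneg s
    have h8 : 0 ≤ m ^ 2 := sq_nonneg m
    have h9 : 0 ≤ M ^ 2 := sq_nonneg M
    have h10 : s ^ 2 = 0 ∨ 0 < s ^ 2 := by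
      rcases h7.lt_or_eq with h | h
      · exact Or.inr h
      · exact Or.inl h.symm
    rcases h10 with h | h
    · have : s = 0 := by
        exact pow_eq_zero_iff (two_ne_zero) |>.1 h
      linarith
    · linarith
  have h3 : t ^ 2 < s ^ 2 + 2 * m * c + Q := by
    rw [ho] at hcon
    nlinarith
  have h4 : Z + 2 * Q < 4 * (s * t) := by
    rw [ho] at hcon hV
    rw [hZ]
    nlinarith
  have h5 : 0 ≤ Z := le_trans (by positivity) h1
  have h6 : (Z + 2 * Q) ^ 2 < (4 * (s * t)) ^ 2 :=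
    pow_lt_pow_left₀ h4 (by linarith) two_ne_zero
  have h7 : 4 * s ^ 2 * Q ≤ Z * Q := mul_le_mul_of_nonneg_right h1 hQ
  have h8 : s ^ 2 * t ^ 2 ≤ s ^ 2 * (s ^ 2 + 2 * m * c + Q) :=
    mul_le_mul_of_nonneg_left h3.le (sq_nonneg s)
  nlinarith [sq_nonneg Q]

/-- the barrier: `2c + C ≤ o` before a conversion. The hypothesis is `V' ≥ 0` with the reserve
`H`, where `4H = 8cm + 2m² + ((m - c)⁺)² - 2M²`, `M = (c + m - f)⁺` -/
theorem barrier {o f m c M C : ℤ} (hm : 0 ≤ m) (hc0 : 0 ≤ c) (hf : 0 ≤ f)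
    (hc : c ≤ f + m) (hM : M = 0 ∨ (0 ≤ c + m - f ∧ M = c + m - f)) (hC : 0 ≤ C) (hmo : m ≤ o)
    (hV : 8 * f ^ 2 + 8 * (c * m) + 2 * m ^ 2 - M ^ 2 + (8 * (c * C) + 2 * C ^ 2) <
      2 * (o ^ 2 - 2 * (o * m))) : 2 * c + C ≤ o := by
  by_contra hcon
  rw [not_le] at hcon
  have h1 : o ^ 2 - 2 * (o * m) ≤ (2 * c + C) ^ 2 - 2 * ((2 * c + C) * m) := by
    have h2 : 0 ≤ (2 * c + C - o) * ((2 * c + C - m) + (o - m)) :=
      mul_nonneg (by linarith) (by linarith)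
    nlinarith
  have h2 : 0 ≤ C * m := mul_nonneg hC hm
  have h3 : 0 ≤ 8 * f ^ 2 + 16 * (c * m) + 2 * m ^ 2 - M ^ 2 - 8 * c ^ 2 := by
    obtain ⟨j, hj⟩ : ∃ j, j = c - f := ⟨_, rfl⟩
    have hc' : c = f + j := by linarith
    by_cases h4 : 0 ≤ j
    · have h5 : 0 ≤ m - j := by linarith
      have h6 : M ^ 2 ≤ (m + j) ^ 2 := by
        rcases hM with h | h
        · rw [h]
          positivity
        · rw [h.2]
          exact pow_le_pow_left₀ h.1 (by linarith) 2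
      rw [hc']
      nlinarith [mul_nonneg hf h5, mul_nonneg h4 h5, mul_nonneg hm h5, mul_nonneg h4 hm]
    · rw [not_le] at h4
      have h6 : M ^ 2 ≤ m ^ 2 := by
        rcases hM with h | h
        · rw [h]
          positivity
        · rw [h.2]
          exact pow_le_pow_left₀ h.1 (by linarith) 2
      have h7 : c ^ 2 ≤ f ^ 2 := pow_le_pow_left₀ hc0 (by linarith) 2
      have h8 : 0 ≤ c * m := mul_nonneg hc0 hm
      nlinarith [sq_nonneg m]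
  nlinarith

end Pool.Agent.OCN.YA
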