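import Pool.Agent.Lib_helper92.OCN.YcMs

/-!
# MP_aeb124_co: number game, the states without conversions (definitions)

In these states `W - u ≤ μ`. The level `f` is carried; `pz` is the potential. In a window only
single elements are paid, so `r` grows with every attack from the window, and `kc` bounds the number
of these attacks.
-/

set_option autoImplicit false

namespace Pool.Agent.OCN.YC

/-- a bound for the number of attacks from the window -/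
def kc (Q R0 r a : ℕ) : ℕ := if r < R0 then (R0 - r) + Q / R0 + 1 else a

/-- the bound for `kc` -/
def kap (Q R0 : ℕ) : ℕ := R0 + Q / R0 + 1

/-- the slope of the budget -/
def kK (Q R0 : ℕ) : ℕ := 4 * (kap Q R0 + 7) + 16

/-- the potential: `E` levels, `d` the debt of the window, `x` the excess, `y` the excess of the start of
a long window -/
def pz (f E o d x y : ℕ) : ℤ :=
  (o : ℤ) ^ 2 - 2 * (o * E) - 2 * d - 2 * (f * o) - 2 * x - 2 * y

/-- the budget -/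
def bz (Q R0 E o k : ℕ) : ℤ :=
  (kK Q R0 : ℤ) * o + (if E = 0 then 2 * ((o : ℤ) * k) else 2 * ((Q : ℤ) * kap Q R0))

/-- the states without a window -/
structure Zc (W Q R0 f F o u μ : ℕ) (β : Multiset ℕ) : Prop where
  hE : W - u ≤ μ
  hQ : o ≤ Q
  hF : ∀ j ∈ β, j ≤ F
  mg : 2 * F + 2 ≤ o
  gx : 4 * ex f β ≤ o * (o - (2 * F + 2))
  hP : bz Q R0 (W - u) o 0 ≤ pz f (W - u) o 0 (ex f β) 0

/-- the states with a window -/
structure Zw (W Q R0 f F t w o a r u μ ν cb : ℕ) (β : Multiset ℕ) : Prop where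
  hE : W - u ≤ μ
  hQ : o ≤ Q
  hF : ∀ j ∈ β, j ≤ F
  hw : kc Q R0 r a + t ≤ w
  a1 : 1 ≤ a
  r1 : 1 ≤ r
  ra : r * a ≤ o
  n1 : ν ≤ 1
  mg : 2 * F + 2 + 4 * w + 2 * r ≤ o
  rw : r + w ≤ kap Q R0 + 7
  gx : 4 * ex f β ≤ (o - w) * (o - w - (2 * F + 2))
  sh : cb = 0 → 2 * (r * a) ≤ t * (o - w)
  n0 : ν = 0 → r * a + F + 2 + w ≤ o
  lg : 1 ≤ cb → r = 1 ∧ ν = 1 ∧ cb ≤ F ∧ cb ≤ a ∧ a + F + 2 + w ≤ o ∧ 3 ≤ t ∧
    2 * a ≤ (t - 3) * (o - w)
  hP : bz Q R0 (W - u) o (kc Q R0 r a) + (if 1 ≤ cb ∧ cb < a then 2 * (Q : ℤ) else 0) ≤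
    pz f (W - u) o (r * a) (ex f β) (cb - f)

/-- the states without conversions -/
def ZS (W Q R0 f : ℕ) (σ : St) : Prop :=
  (σ.a = 0 ∧ σ.r = 0 ∧ ∃ F, Zc W Q R0 f F σ.o σ.u σ.μ σ.β) ∨
    ∃ F t w, Zw W Q R0 f F t w σ.o σ.a σ.r σ.u σ.μ σ.ν σ.cb σ.β

theorem kc_mono {Q R0 r a a' : ℕ} (h : a' ≤ a) : kc Q R0 r a' ≤ kc Q R0 r a := by
  unfold kc
  split_ifs
  · exact le_rfl
  · exact h

theorem kc_pos {Q R0 r a : ℕ} (h : 1 ≤ a) : 1 ≤ kc Q R0 r a := by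
  unfold kc
  split_ifs
  · exact Nat.le_add_left _ _
  · exact h

theorem kc_le {Q R0 r a : ℕ} (hR : 1 ≤ R0) (h : r * a ≤ Q) : kc Q R0 r a ≤ kap Q R0 := by
  unfold kc kap
  split_ifs with h1
  · omega
  · have h2 : R0 * a ≤ Q := (Nat.mul_le_mul_right a (not_lt.1 h1)).trans h
    have h3 : a ≤ Q / R0 := (Nat.le_div_iff_mul_le hR).2 (by rw [mul_comm]; exact h2)
    omega

/-- an attack from the window -/
theorem kc_step {Q R0 r a a' : ℕ} (hR : 1 ≤ R0) (h : (r + 1) * a' ≤ Q) (ha : a' ≤ a) :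
    kc Q R0 (r + 1) a' + 1 ≤ kc Q R0 r (a + 1) := by
  unfold kc
  split_ifs with h1 h2 h2
  · omega
  · omega
  · have h3 : R0 * a' ≤ Q := (Nat.mul_le_mul_right a' (not_lt.1 h1)).trans h
    have h4 : a' ≤ Q / R0 := (Nat.le_div_iff_mul_le hR).2 (by rw [mul_comm]; exact h3)
    omega
  · omega

theorem one_le_kap {Q R0 : ℕ} : 1 ≤ kap Q R0 := Nat.le_add_left _ _

/-- the potential controls `o` -/
theorem pz_o {Q R0 f E o d x y k : ℕ} {i : ℤ} (ho : 1 ≤ o) (hi : i ≤ 2 * o + 2)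
    (h : bz Q R0 E o k ≤ pz f E o d x y + i) :
    2 * E + 2 * f + kK Q R0 ≤ o + 4 := by
  unfold bz pz at h
  have h1 : (0 : ℤ) ≤ if E = 0 then 2 * ((o : ℤ) * k) else 2 * ((Q : ℤ) * kap Q R0) := by
    split_ifs <;> positivity
  have h2 : (0 : ℤ) ≤ d := Int.natCast_nonneg d
  have h3 : (0 : ℤ) ≤ x := Int.natCast_nonneg x
  have h4 : (0 : ℤ) ≤ y := Int.natCast_nonneg y
  have h5 : (1 : ℤ) ≤ o := by exact_mod_cast ho
  by_contra hcon
  rw [not_le] at hcon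
  have h6 : (o : ℤ) + 5 ≤ 2 * E + 2 * f + kK Q R0 := by exact_mod_cast hcon
  have h7 : (o : ℤ) * (o + 5) ≤ o * (2 * E + 2 * f + kK Q R0) :=
    mul_le_mul_of_nonneg_left h6 (by linarith)
  nlinarith

end Pool.Agent.OCN.YC
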