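import Pool.Agent.Lib_helper28.OCN.YcZ0
import Pool.Agent.Lib_helper28.OCN.YcAr

/-!
# MP_aeb124_co: number game, the states without conversions (payments)
-/

set_option autoImplicit false

namespace Pool.Agent.OCN.YC

variable {W nl Q R0 f : ℕ}

/-- no window, no excess -/
theorem Z_flat (hR : 1 ≤ R0) (hf : f ≤ nl) : ∀ (E : ℕ) {o r u μ ν cb R : ℕ} {β : Multiset ℕ},
    W - u = E → E ≤ μ → o ≤ Q → (∀ j ∈ β, j ≤ f) → R ≤ o + 1 →
    bz Q R0 E o 0 ≤ pz f E o 0 0 0 + 2 * R →
    ∃ σ'' c, Pays ⟨o, 0, r, u, μ, ν, cb, β⟩ σ'' c ∧ c ≤ R ∧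
      (ZS W Q R0 f σ'' ∨ Ex W nl σ'') := by
  intro E
  induction E with
  | zero =>
    intro o r u μ ν cb R β hE _ hQ hF hI hP
    refine ⟨_, 0, Pays.refl _, Nat.zero_le _, Or.inr ?_⟩
    by_cases ho : o = 0
    · exact Or.inl ho
    · have h1 := pz_o (by omega) (by linarith [(Nat.cast_le (α := ℤ)).2 hI]) hP
      refine Or.inr ⟨by show 1 ≤ o; omega, rfl, by show W ≤ u; omega, fun j hj => ?_⟩
      have h2 := hF j hj
      have h3 : 16 ≤ kK Q R0 := Nat.le_add_left _ _
      constructor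
      · show 2 * j + 1 ≤ o
        omega
      · omega
  | succ E ih =>
    intro o r u μ ν cb R β hE hμ hQ hF hI hP
    by_cases ho : o = 0
    · exact ⟨_, 0, Pays.refl _, Nat.zero_le _, Or.inr (Or.inl ho)⟩
    have ho1 : 1 ≤ o := by omega
    have h1 := pz_o ho1 (by linarith [(Nat.cast_le (α := ℤ)).2 hI]) hP
    obtain ⟨μ', rfl⟩ : ∃ μ', μ = μ' + 1 := ⟨μ - 1, by omega⟩
    have hE' : W - (u + 1) = E := by omega
    have hkk : kK Q R0 = 4 * (kap Q R0 + 7) + 16 := rfl
    have hbz : bz Q R0 (E + 1) o 0 = kK Q R0 * o + 2 * (Q * kap Q R0) := by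
      unfold bz
      rw [if_neg (Nat.succ_ne_zero E)]
    rw [hbz] at hP
    have hoQ : (o : ℤ) ≤ Q := by exact_mod_cast hQ
    by_cases hRo : R < o
    · -- the window stays open
      have h2 := pays_opn o r u μ' ν cb β
      have h3 := pays_one o (o - R) 1 (u + 1) μ' 1 0 R β
      rw [Nat.sub_add_cancel hRo.le] at h3
      have h4 := h2.trans h3
      rw [zero_add, one_mul] at h4
      have hk1 : kc Q R0 1 (o - R) ≤ kap Q R0 := kc_le hR (by omega)
      refine ⟨_, R, h4, le_rfl, Or.inl (Or.inr ⟨f, 3, kc Q R0 1 (o - R) + 3, ?_⟩)⟩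
      have hex : ex f β = 0 := ex_eq_zero.2 hF
      have hkR : (kc Q R0 1 (o - R) : ℤ) ≤ kap Q R0 := by exact_mod_cast hk1
      refine
        { hE := by show W - (u + 1) ≤ μ'; omega
          hQ := hQ
          hF := hF
          hw := le_rfl
          a1 := by show 1 ≤ o - R; omega
          r1 := le_rfl
          ra := by show 1 * (o - R) ≤ o; omega
          n1 := le_rfl
          mg := ?_
          rw := ?_
          gx := by rw [hex]; exact Nat.zero_le _
          sh := fun _ => ?_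
          n0 := fun h => absurd h one_ne_zero
          lg := fun h => absurd h (Nat.not_succ_le_zero 0)
          hP := ?_ }
      · show 2 * f + 2 + 4 * (kc Q R0 1 (o - R) + 3) + 2 * 1 ≤ o
        omega
      · show 1 + (kc Q R0 1 (o - R) + 3) ≤ kap Q R0 + 7
        omega
      · show 2 * (1 * (o - R)) ≤ 3 * (o - (kc Q R0 1 (o - R) + 3))
        omega
      · show bz Q R0 (W - (u + 1)) o (kc Q R0 1 (o - R)) +
          (if 1 ≤ 0 ∧ 0 < o - R then 2 * (Q : ℤ) else 0) ≤
          pz f (W - (u + 1)) o (1 * (o - R)) (ex f β) (0 - f)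
        rw [hE', hex, if_neg (by omega), add_zero, one_mul, Nat.zero_sub]
        have h5 : ((o - R : ℕ) : ℤ) = o - R := by
          rw [Nat.cast_sub hRo.le]
        have h6 : bz Q R0 E o (kc Q R0 1 (o - R)) ≤ kK Q R0 * o + 2 * (Q * kap Q R0) := by
          unfold bz
          have h7 : (o : ℤ) * kc Q R0 1 (o - R) ≤ Q * kap Q R0 :=
            mul_le_mul hoQ hkR (Int.natCast_nonneg _) (Int.natCast_nonneg _)
          split_ifs
          · linarith
          · exact le_rfl
        refine h6.trans (hP.trans (le_of_eq ?_))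
        unfold pz
        rw [h5]
        push_cast
        ring
    · -- the window is closed at once
      rw [not_lt] at hRo
      have h2 := pays_opn o r u μ' ν cb β
      have h3 := pays_close o o 1 (u + 1) μ' 1 0 1 0 β
      have h4 := h2.trans h3
      rw [zero_add, one_mul] at h4
      obtain ⟨σ'', c, h5, h6, h7⟩ := ih (o := o) (r := 0) (u := u + 1) (μ := μ') (ν := 1) (cb := 0)
        (R := R - o) (β := β) hE' (by omega) hQ hF (by omega) (by
          have h8 : ((R - o : ℕ) : ℤ) = R - o := by rw [Nat.cast_sub hRo]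
          rw [h8]
          have h9 : bz Q R0 E o 0 ≤ kK Q R0 * o + 2 * (Q * kap Q R0) := by
            unfold bz
            split_ifs
            · have : (0 : ℤ) ≤ 2 * ((Q : ℤ) * kap Q R0) := by positivity
              rw [Nat.cast_zero, mul_zero, mul_zero]
              linarith
            · exact le_rfl
          refine h9.trans (hP.trans (le_of_eq ?_))
          unfold pz
          push_cast
          ring)
      exact ⟨σ'', o + c, h4.trans h5, by omega, h7⟩

/-- no window -/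
theorem Z_closed (hR : 1 ≤ R0) (hf : f ≤ nl) {o r u μ ν cb F I : ℕ} {β : Multiset ℕ}
    (hE : W - u ≤ μ) (hQ : o ≤ Q) (hF : ∀ j ∈ β, j ≤ F) (hI : I ≤ o + 1)
    (hx : ex f β ≤ I ∨ (2 * F + 2 ≤ o ∧ 4 * (ex f β - I) ≤ o * (o - (2 * F + 2))))
    (hP : bz Q R0 (W - u) o 0 ≤ pz f (W - u) o 0 (ex f β) 0 + 2 * I) :
    ∃ σ'' c, Pays ⟨o, 0, r, u, μ, ν, cb, β⟩ σ'' c ∧ c ≤ I ∧
      (ZS W Q R0 f σ'' ∨ Ex W nl σ'') := by
  by_cases hxI : ex f β ≤ I
  · obtain ⟨σ'', c, h1, h2, h3⟩ := Z_flat (W := W) (Q := Q) hR hf (W - u) (o := o) (r := r) (u := u)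
      (μ := μ) (ν := ν) (cb := cb) (R := I - ex f β) (β := β.map fun d => min d f) rfl hE hQ
      (cap_le f β) (by omega) (by
        have h8 : ((I - ex f β : ℕ) : ℤ) = I - ex f β := by rw [Nat.cast_sub hxI]
        rw [h8]
        refine hP.trans (le_of_eq ?_)
        unfold pz
        push_cast
        ring)
    exact ⟨σ'', ex f β + c, ((Lw.cap f β).pays o 0 r u μ ν cb).trans h1, by omega, h3⟩
  · rw [not_le] at hxI
    obtain ⟨h1, h2⟩ : 2 * F + 2 ≤ o ∧ 4 * (ex f β - I) ≤ o * (o - (2 * F + 2)) := by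
      rcases hx with h | h
      · omega
      · exact h
    obtain ⟨S', k1, k2, _, _⟩ := Lw.fill' β f I
    rw [min_eq_left hxI.le] at k1
    have k3 := k1.pays o 0 r u μ ν cb
    have k4 := k3.trans (Pays.single (Pay.nrm o r u μ ν cb ν cb S'))
    rw [add_zero] at k4
    have k5 := k2 f le_rfl
    refine ⟨_, I, k4, le_rfl, Or.inl (Or.inl ⟨rfl, rfl, F, ?_⟩)⟩
    refine
      { hE := hE
        hQ := hQ
        hF := k1.le hF
        mg := h1
        gx := ?_
        hP := ?_ }
    · show 4 * ex f S' ≤ o * (o - (2 * F + 2))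
      rw [k5]
      exact h2
    · show bz Q R0 (W - u) o 0 ≤ pz f (W - u) o 0 (ex f S') 0
      rw [k5]
      have h8 : ((ex f β - I : ℕ) : ℤ) = ex f β - I := by rw [Nat.cast_sub hxI.le]
      refine hP.trans (le_of_eq ?_)
      unfold pz
      rw [h8]
      ring

end Pool.Agent.OCN.YC
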