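import Pool.Agent.Lib_helper28.OCN.YcZ1

/-!
# MP_aeb124_co: number game, the states without conversions (the window)
-/

set_option autoImplicit false

namespace Pool.Agent.OCN.YC

variable {W nl Q R0 f : ℕ}

theorem bz_zero_le {E o k : ℕ} : bz Q R0 E o 0 ≤ bz Q R0 E o k := by
  unfold bz
  have h1 : (0 : ℤ) ≤ 2 * ((o : ℤ) * k) := by positivity
  split_ifs
  · rw [Nat.cast_zero, mul_zero, mul_zero]
    linarith
  · exact le_rfl

theorem bz_mono {E o k k' : ℕ} (h : k' ≤ k) : bz Q R0 E o k' ≤ bz Q R0 E o k := by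
  unfold bz
  have h1 : (o : ℤ) * k' ≤ o * k :=
    mul_le_mul_of_nonneg_left (by exact_mod_cast h) (Int.natCast_nonneg o)
  split_ifs
  · linarith
  · exact le_rfl

/-- the excess of a state which has been closed -/
theorem gx_close {o w F x I : ℕ} (hw : 1 ≤ w) (hm : 2 * F + 2 + w ≤ o + 1)
    (gx : 4 * x ≤ (o + 1 - w) * (o + 1 - w - (2 * F + 2))) :
    4 * (x - I) ≤ o * (o - (2 * F + 2)) := by
  have h1 : (o + 1 - w) * (o + 1 - w - (2 * F + 2)) ≤ o * (o - (2 * F + 2)) :=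
    Nat.mul_le_mul (by omega) (by omega)
  omega

/-- a window, money -/
theorem Z_window (hR : 1 ≤ R0) (hf : f ≤ nl) {o a r u μ ν cb F I t w : ℕ} {β : Multiset ℕ}
    (hE : W - u ≤ μ) (hQ : o ≤ Q) (hF : ∀ j ∈ β, j ≤ F)
    (hw : kc Q R0 r a + t ≤ w) (r1 : 1 ≤ r) (n1 : ν ≤ 1)
    (ra : r * a ≤ o + 1)
    (mg : 2 * F + 2 + 4 * w + 2 * r ≤ o + 1) (rw : r + w ≤ kap Q R0 + 7)
    (w1 : 1 ≤ w)
    (gx : 4 * ex f β ≤ (o + 1 - w) * (o + 1 - w - (2 * F + 2)))
    (sh : cb = 0 → 2 * (r * a) ≤ t * (o + 1 - w))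
    (n0 : ν = 0 → r * a + F + 2 + w ≤ o + 1 ∨ o ≤ I + F)
    (lg : 1 ≤ cb → r = 1 ∧ ν = 1 ∧ cb ≤ F ∧ a + F + 2 + w ≤ o + 1 ∧ 3 ≤ t ∧
      2 * a ≤ (t - 3) * (o + 1 - w))
    (hI : I ≤ o + 1) (hI2 : o + 2 * r ≤ 2 * I)
    (hP : bz Q R0 (W - u) o (kc Q R0 r a) + (if 1 ≤ cb ∧ cb < a then 2 * (Q : ℤ) else 0) +
      2 * (kap Q R0 + 7 : ℕ) ≤ pz f (W - u) o (r * a) (ex f β) (cb - f) + 2 * I) :
    ∃ σ'' c, Pays ⟨o, a, r, u, μ, ν, cb, β⟩ σ'' c ∧ c ≤ I ∧ (ZS W Q R0 f σ'' ∨ Ex W nl σ'') := by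
  by_cases hcl : r * a ≤ I
  · -- the window is closed
    have h1 := pays_close o a r u μ ν cb 0 0 β
    obtain ⟨σ'', c, h2, h3, h4⟩ := Z_closed (W := W) (Q := Q) hR hf (o := o) (r := 0) (u := u)
      (μ := μ) (ν := 0) (cb := 0) (F := F) (I := I - r * a) (β := β) hE hQ hF (by omega)
      (Or.inr ⟨by omega, gx_close w1 (by omega) gx⟩) (by
        have h5 : ((I - r * a : ℕ) : ℤ) = (I : ℤ) - (r * a : ℕ) := by rw [Nat.cast_sub hcl]
        have h6 : (0 : ℤ) ≤ if 1 ≤ cb ∧ cb < a then 2 * (Q : ℤ) else 0 := by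
          split_ifs
          · positivity
          · exact le_rfl
        have h7 : bz Q R0 (W - u) o 0 ≤ bz Q R0 (W - u) o (kc Q R0 r a) := bz_zero_le
        have h8 : (0 : ℤ) ≤ ((kap Q R0 + 7 : ℕ) : ℤ) := Int.natCast_nonneg _
        have h9 : (0 : ℤ) ≤ ((cb - f : ℕ) : ℤ) := Int.natCast_nonneg _
        unfold pz at hP ⊢
        rw [h5]
        rw [Nat.cast_zero]
        linarith)
    exact ⟨σ'', r * a + c, h1.trans h2, by omega, h4⟩
  rw [not_le] at hcl
  rcases Nat.eq_zero_or_pos cb with rfl | hcb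
  · -- short window
    have hsh := sh rfl
    obtain ⟨a', c, ha', hc, hac, hz, hp⟩ := pays_window o a r u μ ν 0 I β r1
    have ha1 : a' ≠ 0 := by
      rintro rfl
      omega
    have hcr : I < c + r := hz.resolve_left ha1
    have ht : 2 ≤ t := by
      by_contra hcon
      have h1 : t * (o + 1 - w) ≤ 1 * (o + 1 - w) := Nat.mul_le_mul_right _ (by omega)
      omega
    obtain ⟨t', rfl⟩ : ∃ t', t = t' + 1 := ⟨t - 1, by omega⟩
    obtain ⟨w', rfl⟩ : ∃ w', w = w' + 1 := ⟨w - 1, by omega⟩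
    have hw' : o + 1 - (w' + 1) = o - w' := by omega
    rw [hw'] at gx hsh
    have hk : kc Q R0 r a' ≤ kc Q R0 r a := kc_mono ha'
    refine ⟨_, c, hp, hc, Or.inl (Or.inr ⟨F, t', w', ?_⟩)⟩
    refine
      { hE := hE
        hQ := hQ
        hF := hF
        hw := by show kc Q R0 r a' + t' ≤ w'; omega
        a1 := by show 1 ≤ a'; omega
        r1 := r1
        ra := by show r * a' ≤ o; omega
        n1 := n1
        mg := by show 2 * F + 2 + 4 * w' + 2 * r ≤ o; omega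
        rw := by show r + w' ≤ kap Q R0 + 7; omega
        gx := gx
        sh := fun _ => ?_
        n0 := fun h => ?_
        lg := fun h => absurd h (Nat.not_succ_le_zero 0)
        hP := ?_ }
    · show 2 * (r * a') ≤ t' * (o - w')
      have h1 : (t' + 1) * (o - w') = t' * (o - w') + (o - w') := by ring
      omega
    · show r * a' + F + 2 + w' ≤ o
      rcases n0 h with h1 | h1
      · omega
      · omega
    · show bz Q R0 (W - u) o (kc Q R0 r a') + (if 1 ≤ 0 ∧ 0 < a' then 2 * (Q : ℤ) else 0) ≤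
        pz f (W - u) o (r * a') (ex f β) (0 - f)
      rw [if_neg (by omega)] at hP ⊢
      have h1 : bz Q R0 (W - u) o (kc Q R0 r a') ≤ bz Q R0 (W - u) o (kc Q R0 r a) := bz_mono hk
      have h2 : ((r * a : ℕ) : ℤ) = (r * a' : ℕ) + (c : ℕ) := by rw [hac, Nat.cast_add]
      have h3 : (I : ℤ) + 1 ≤ c + r := by exact_mod_cast hcr
      have h4 : (r : ℤ) ≤ (kap Q R0 + 7 : ℕ) := by
        have h5 : r ≤ kap Q R0 + 7 := by omega
        exact_mod_cast h5
      unfold pz at hP ⊢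
      rw [h2] at hP
      linarith
  · -- long window
    obtain ⟨rfl, rfl, hcF, hn, ht3, hta⟩ := lg hcb
    rw [one_mul] at hcl ra hP
    have haF : F < a := by omega
    have ht : 5 ≤ t := by
      by_contra hcon
      have h1 : (t - 3) * (o + 1 - w) ≤ 1 * (o + 1 - w) := Nat.mul_le_mul_right _ (by omega)
      omega
    obtain ⟨t', rfl⟩ : ∃ t', t = t' + 1 := ⟨t - 1, by omega⟩
    obtain ⟨w', rfl⟩ : ∃ w', w = w' + 1 := ⟨w - 1, by omega⟩
    have hw' : o + 1 - (w' + 1) = o - w' := by omega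
    rw [hw'] at gx hta
    have h3 : t' + 1 - 3 = t' - 3 + 1 := by omega
    rw [h3, add_mul, one_mul] at hta
    -- the payment
    obtain ⟨k, hk1, hk2, hk3⟩ : ∃ k, k ≤ I ∧ cb + k ≤ a ∧ (k = I ∨ cb + k = a) := by
      by_cases h : cb + I ≤ a
      · exact ⟨I, le_rfl, h, Or.inl rfl⟩
      · exact ⟨a - cb, by omega, by omega, Or.inr (by omega)⟩
    have hp := pays_one o (a - k) 1 u μ 1 cb k β
    rw [Nat.sub_add_cancel (by omega), one_mul] at hp
    have hkk : kc Q R0 1 (a - k) ≤ kc Q R0 1 a := kc_mono (by omega)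
    have hkI : 2 * (a - k) ≤ (t' - 3) * (o - w') := by
      rcases hk3 with rfl | h
      · omega
      · have h4 : 1 * (o - w') ≤ (t' - 3) * (o - w') := Nat.mul_le_mul_right _ (by omega)
        omega
    refine ⟨_, k, hp, hk1, Or.inl (Or.inr ⟨F, t', w', ?_⟩)⟩
    refine
      { hE := hE
        hQ := hQ
        hF := hF
        hw := by show kc Q R0 1 (a - k) + t' ≤ w'; omega
        a1 := by show 1 ≤ a - k; omega
        r1 := r1
        ra := by show 1 * (a - k) ≤ o; omega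
        n1 := n1
        mg := by show 2 * F + 2 + 4 * w' + 2 * 1 ≤ o; omega
        rw := by show 1 + w' ≤ kap Q R0 + 7; omega
        gx := gx
        sh := fun h => absurd h (Nat.pos_iff_ne_zero.1 hcb)
        n0 := fun h => absurd h one_ne_zero
        lg := fun _ => ⟨rfl, rfl, hcF, by show cb ≤ a - k; omega,
          by show a - k + F + 2 + w' ≤ o; omega, by omega, hkI⟩
        hP := ?_ }
    show bz Q R0 (W - u) o (kc Q R0 1 (a - k)) + (if 1 ≤ cb ∧ cb < a - k then 2 * (Q : ℤ) else 0) ≤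
      pz f (W - u) o (1 * (a - k)) (ex f β) (cb - f)
    have h4 : bz Q R0 (W - u) o (kc Q R0 1 (a - k)) ≤ bz Q R0 (W - u) o (kc Q R0 1 a) :=
      bz_mono hkk
    have h5 : ((a - k : ℕ) : ℤ) = (a : ℤ) - k := by rw [Nat.cast_sub (by omega)]
    have h6 : (0 : ℤ) ≤ ((kap Q R0 + 7 : ℕ) : ℤ) := Int.natCast_nonneg _
    rw [if_pos ⟨hcb, by omega⟩] at hP
    rw [one_mul]
    unfold pz at hP ⊢
    rw [h5]
    rcases hk3 with rfl | h
    · split_ifs <;> linarith
    · rw [if_neg (by omega)]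
      have h7 : I + cb ≤ k + Q + cb := by omega
      have h8 : (I : ℤ) ≤ k + Q := by
        have : I ≤ k + Q := by omega
        exact_mod_cast this
      linarith

end Pool.Agent.OCN.YC
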