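import Pool.Agent.Lib_helper28.OCN.YcZ2

/-!
# MP_aeb124_co: number game, the states without conversions (attacks)
-/

set_option autoImplicit false

namespace Pool.Agent.OCN.YC

variable {W nl Q R0 f : ℕ}

/-- an attack with money, no window -/
theorem Zc_money (hR : 1 ≤ R0) (hf : f ≤ nl) {o r u μ μ' ν cb F I : ℕ} {β β' : Multiset ℕ}
    (h : Zc W Q R0 f F (o + 1) u μ β) (hμ : W - u ≤ μ') (hF : ∀ j ∈ β', j ≤ F)
    (hx : ex f β' ≤ ex f β) (hI : I ≤ o + 1) (hI2 : o ≤ 2 * I)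
    (hm : o + ex f β' ≤ I + (W - u) + f + ex f β) :
    ∃ σ'' c, Pays ⟨o, 0, r, u, μ', ν, cb, β'⟩ σ'' c ∧ c ≤ I ∧
      (ZS W Q R0 f σ'' ∨ Ex W nl σ'') := by
  refine Z_closed (W := W) (Q := Q) (F := F) hR hf hμ ((Nat.le_succ o).trans h.hQ) hF hI ?_ ?_
  · by_cases h1 : ex f β' ≤ I
    · exact Or.inl h1
    · right
      have h2 := h.mg
      have h3 := h.gx
      by_cases h4 : 2 * F + 2 ≤ o
      · refine ⟨h4, ?_⟩
        obtain ⟨m, rfl⟩ := Nat.exists_eq_add_of_le h4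
        have h5 : 2 * F + 2 + m + 1 - (2 * F + 2) = m + 1 := by omega
        have h6 : 2 * F + 2 + m - (2 * F + 2) = m := by omega
        rw [h5] at h3
        rw [h6]
        have h7 : (2 * F + 2 + m + 1) * (m + 1) = (2 * F + 2 + m) * m + (2 * F + 2 + m) + m + 1 := by
          ring
        rw [h7] at h3
        omega
      · have h5 : o + 1 - (2 * F + 2) = 0 := by omega
        rw [h5, mul_zero] at h3
        omega
  · have h1 := h.hP
    have h2 : bz Q R0 (W - u) o 0 ≤ bz Q R0 (W - u) (o + 1) 0 - kK Q R0 := by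
      unfold bz
      have h3 : (0 : ℤ) ≤ 2 * (((o + 1 : ℕ) : ℤ) * (0 : ℕ)) := by positivity
      rw [Nat.cast_zero, mul_zero, mul_zero, Nat.cast_add, Nat.cast_one]
      rw [mul_zero, mul_zero]
      split_ifs <;> linarith
    have h3 : (16 : ℤ) ≤ kK Q R0 := by
      have : 16 ≤ kK Q R0 := Nat.le_add_left _ _
      exact_mod_cast this
    have h4 : (o : ℤ) + ex f β' ≤ I + (W - u : ℕ) + f + ex f β := by exact_mod_cast hm
    have h5 : pz f (W - u) (o + 1) 0 (ex f β) 0 + 2 * (o + ex f β' : ℤ) + 1 =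
        pz f (W - u) o 0 (ex f β') 0 + 2 * ((W - u : ℕ) : ℤ) * (-1) + 2 * (f : ℤ) * (-1) -
        2 * ex f β + 4 * ((o : ℤ) + ex f β') + 2 := by
      unfold pz
      push_cast
      ring
    linarith

/-- an attack with money, window -/
theorem Zw_money (hR : 1 ≤ R0) (hf : f ≤ nl) {o a a' r u μ μ' ν ν' cb F I t w : ℕ}
    {β β' : Multiset ℕ} (h : Zw W Q R0 f F t w (o + 1) a r u μ ν cb β)
    (hμ : W - u ≤ μ') (ha : a' ≤ a) (hF : ∀ j ∈ β', j ≤ F)
    (hx : ex f β' ≤ ex f β) (hI : I ≤ o + 1) (hI2 : o + 2 * r ≤ 2 * I)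
    (hn : ν' = ν ∨ (cb = 0 ∧ ν' ≤ 1 ∧ o ≤ I + F))
    (hm : o + r * a' + ex f β' ≤ I + (W - u) + f + r * a + ex f β) :
    ∃ σ'' c, Pays ⟨o, a', r, u, μ', ν', cb, β'⟩ σ'' c ∧ c ≤ I ∧
      (ZS W Q R0 f σ'' ∨ Ex W nl σ'') := by
  have hra : r * a' ≤ r * a := Nat.mul_le_mul_left r ha
  have hk : kc Q R0 r a' ≤ kc Q R0 r a := kc_mono ha
  have hk1 : 1 ≤ kc Q R0 r a := kc_pos h.a1
  have hw := h.hw
  have hn1 := h.n1
  refine Z_window (W := W) (Q := Q) (F := F) (t := t) (w := w) hR hf hμ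
    ((Nat.le_succ o).trans h.hQ) hF (by omega) h.r1 ?_ (hra.trans h.ra) h.mg h.rw (by omega)
    ((Nat.mul_le_mul_left 4 hx).trans h.gx) (fun h1 => ?_) (fun h1 => ?_) (fun h1 => ?_) hI hI2 ?_
  · rcases hn with h1 | h1
    · omega
    · exact h1.2.1
  · have h2 := h.sh h1
    omega
  · rcases hn with h2 | h2
    · have h3 := h.n0 (by omega)
      left
      omega
    · exact Or.inr h2.2.2
  · obtain ⟨h2, h3, h4, h5, h6, h7, h8⟩ := h.lg h1
    refine ⟨h2, ?_, h4, ?_, h7, ?_⟩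
    · rcases hn with h9 | h9
      · omega
      · omega
    · omega
    · omega
  · have h1 := h.hP
    have h2 : bz Q R0 (W - u) o (kc Q R0 r a') ≤
        bz Q R0 (W - u) (o + 1) (kc Q R0 r a) - kK Q R0 := by
      unfold bz
      have h3 : (o : ℤ) * kc Q R0 r a' ≤ ((o + 1 : ℕ) : ℤ) * kc Q R0 r a :=
        mul_le_mul (by exact_mod_cast Nat.le_succ o) (by exact_mod_cast hk)
          (Int.natCast_nonneg _) (Int.natCast_nonneg _)
      rw [Nat.cast_add, Nat.cast_one] at h3 ⊢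
      split_ifs <;> linarith
    have h3 : (kK Q R0 : ℤ) = 4 * (kap Q R0 + 7 : ℕ) + 16 := by
      unfold kK
      push_cast
      ring
    have h4 : (o : ℤ) + (r * a' : ℕ) + ex f β' ≤ I + (W - u : ℕ) + f + (r * a : ℕ) + ex f β := by
      exact_mod_cast hm
    have h5 : (if 1 ≤ cb ∧ cb < a' then 2 * (Q : ℤ) else 0) ≤
        (if 1 ≤ cb ∧ cb < a then 2 * (Q : ℤ) else 0) := by
      by_cases h6 : 1 ≤ cb ∧ cb < a'
      · rw [if_pos h6, if_pos ⟨h6.1, by omega⟩]
      · rw [if_neg h6]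
        split_ifs
        · positivity
        · exact le_rfl
    have h6 : (0 : ℤ) ≤ ((kap Q R0 + 7 : ℕ) : ℤ) := Int.natCast_nonneg _
    have h7 : pz f (W - u) (o + 1) (r * a) (ex f β) (cb - f) =
        pz f (W - u) o (r * a') (ex f β') (cb - f) + 2 * o + 1 - 2 * (W - u : ℕ) - 2 * f -
        2 * (r * a : ℕ) + 2 * (r * a' : ℕ) - 2 * ex f β + 2 * ex f β' := by
      unfold pz
      push_cast
      ring
    linarith

/-- the potential in the attack of a start of the window -/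
theorem ws_P {E o d d' x y k k' : ℕ} (hk : k' + 1 ≤ k) (hk2 : k' ≤ kap Q R0) (hQ : o ≤ Q)
    (hd : d' ≤ d + f + y) (hP : bz Q R0 E (o + 1) k ≤ pz f E (o + 1) d x y) :
    bz Q R0 (E - 1) o k' ≤ pz f (E - 1) o d' x 0 := by
  have h3 : (16 : ℤ) ≤ kK Q R0 := by
    have : 16 ≤ kK Q R0 := Nat.le_add_left _ _
    exact_mod_cast this
  have hd' : (d' : ℤ) ≤ d + f + y := by exact_mod_cast hd
  have ho : (0 : ℤ) ≤ o := Int.natCast_nonneg _
  have hk0 : (0 : ℤ) ≤ k' := Int.natCast_nonneg _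
  have hkz : (k' : ℤ) + 1 ≤ k := by exact_mod_cast hk
  have h4 : (o : ℤ) * (k' + 1) ≤ o * k := mul_le_mul_of_nonneg_left hkz ho
  rcases Nat.eq_zero_or_pos E with rfl | hE
  · unfold bz pz at *
    rw [if_pos rfl] at hP
    rw [if_pos (Nat.zero_sub 1)]
    push_cast at hP ⊢
    linarith
  · obtain ⟨e, rfl⟩ : ∃ e, E = e + 1 := ⟨E - 1, by omega⟩
    rw [Nat.add_sub_cancel]
    unfold bz pz at *
    rw [if_neg (Nat.succ_ne_zero e)] at hP
    have h5 : (o : ℤ) * k' ≤ Q * kap Q R0 :=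
      mul_le_mul (by exact_mod_cast hQ) (by exact_mod_cast hk2) (Int.natCast_nonneg _)
        (Int.natCast_nonneg _)
    have h6 : (0 : ℤ) ≤ e := Int.natCast_nonneg _
    have h7 : (if e = 0 then 2 * ((o : ℤ) * k') else 2 * ((Q : ℤ) * kap Q R0)) ≤
        2 * ((Q : ℤ) * kap Q R0) := by
      split_ifs
      · linarith
      · exact le_rfl
    push_cast at hP ⊢
    linarith

theorem sub_succ_eq {W u : ℕ} : W - (u + 1) = W - u - 1 := by omega

/-- a start of a short window attacks -/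
theorem Z_ws (hR : 1 ≤ R0) (hf : f ≤ nl) {o a r u μ ν F t w : ℕ} {β : Multiset ℕ}
    (h : Zw W Q R0 f F t w (o + 1) (a + 1) r u μ ν 0 β) :
    ∃ σ'' c, Pays ⟨o, a, r + 1, u + 1, μ, ν, 0, β⟩ σ'' c ∧ c ≤ a + ν ∧
      (ZS W Q R0 f σ'' ∨ Ex W nl σ'') := by
  obtain ⟨a', c, ha', hc, hac, hz, hp⟩ := pays_window o a (r + 1) (u + 1) μ ν 0 (a + ν) β
    (Nat.le_add_left _ _)
  have hE := h.hE
  have hQ := h.hQ
  have hF := h.hF
  have hw := h.hw
  have r1 := h.r1
  have ra := h.ra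
  have n1 := h.n1
  have mg := h.mg
  have rw' := h.rw
  have gx := h.gx
  have sh := h.sh rfl
  have n0 := h.n0
  have hP := h.hP
  have e1 : (r + 1) * a = r * a + a := by ring
  have e2 : r * (a + 1) = r * a + r := by ring
  have e3 : a ≤ r * a := Nat.le_mul_of_pos_left a r1
  have hra : (r + 1) * a' + ν ≤ r * (a + 1) := by
    rcases hz with rfl | h1
    · omega
    · omega
  have hra' : (r + 1) * a' ≤ o := by
    rcases Nat.eq_zero_or_pos ν with h1 | h1
    · have := n0 h1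
      omega
    · omega
  have hraQ : (r + 1) * a' ≤ Q := by omega
  have hk : kc Q R0 (r + 1) a' + 1 ≤ kc Q R0 r (a + 1) := kc_step hR hraQ ha'
  have hk1 : kc Q R0 (r + 1) a' ≤ kap Q R0 := kc_le hR hraQ
  rw [if_neg (by omega), add_zero] at hP
  have hP' : bz Q R0 (W - (u + 1)) o (kc Q R0 (r + 1) a') ≤
      pz f (W - (u + 1)) o ((r + 1) * a') (ex f β) 0 := by
    rw [sub_succ_eq]
    exact ws_P hk hk1 (by omega) (by omega) hP
  obtain ⟨w', rfl⟩ : ∃ w', w = w' + 1 := ⟨w - 1, by omega⟩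
  have hw' : o + 1 - (w' + 1) = o - w' := by omega
  rcases Nat.eq_zero_or_pos a' with rfl | ha1
  · obtain ⟨σ'', c', h2, h3, h4⟩ := Z_closed (W := W) (Q := Q) hR hf (o := o) (r := r + 1)
      (u := u + 1) (μ := μ) (ν := ν) (cb := 0) (F := F) (I := 0) (β := β) (by omega) (by omega) hF
      (Nat.zero_le _) (Or.inr ⟨by omega, gx_close (w := w' + 1) (Nat.le_add_left _ _) (by omega)
        gx⟩) (by
        rw [Nat.cast_zero, mul_zero, add_zero]
        refine bz_zero_le.trans (hP'.trans (le_of_eq ?_))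
        rw [mul_zero])
    exact ⟨σ'', c + c', hp.trans h2, by omega, h4⟩
  · rw [hw'] at gx sh
    refine ⟨_, c, hp, hc, Or.inl (Or.inr ⟨F, t, w', ?_⟩)⟩
    refine
      { hE := by show W - (u + 1) ≤ μ; omega
        hQ := by show o ≤ Q; omega
        hF := hF
        hw := by show kc Q R0 (r + 1) a' + t ≤ w'; omega
        a1 := ha1
        r1 := Nat.le_add_left _ _
        ra := hra'
        n1 := n1
        mg := by show 2 * F + 2 + 4 * w' + 2 * (r + 1) ≤ o; omega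
        rw := by show r + 1 + w' ≤ kap Q R0 + 7; omega
        gx := gx
        sh := fun _ => by show 2 * ((r + 1) * a') ≤ t * (o - w'); omega
        n0 := fun h1 => ?_
        lg := fun h1 => absurd h1 (Nat.not_succ_le_zero 0)
        hP := ?_ }
    · have := n0 h1
      show (r + 1) * a' + F + 2 + w' ≤ o
      omega
    · show bz Q R0 (W - (u + 1)) o (kc Q R0 (r + 1) a') +
        (if 1 ≤ 0 ∧ 0 < a' then 2 * (Q : ℤ) else 0) ≤
        pz f (W - (u + 1)) o ((r + 1) * a') (ex f β) (0 - f)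
      rw [if_neg (by omega), add_zero, Nat.zero_sub]
      exact hP'

/-- the start of a long window attacks -/
theorem Z_wl (hR : 1 ≤ R0) (hf : f ≤ nl) {o a u μ ν cb F t w : ℕ} {β : Multiset ℕ}
    (hcb : 1 ≤ cb) (h : Zw W Q R0 f F t w (o + 1) (a + 1) 1 u μ ν cb β) :
    ∃ σ'' c, Pays ⟨o, a, 2, u + 1, μ, ν, 0, β⟩ σ'' c ∧ c ≤ a + ν - cb ∧
      (ZS W Q R0 f σ'' ∨ Ex W nl σ'') := by
  obtain ⟨_, h2, h3, h4, h5, h6, h7⟩ := h.lg hcb
  subst h2
  obtain ⟨a', c, ha', hc, hac, hz, hp⟩ := pays_window o a 2 (u + 1) μ 1 0 (a + 1 - cb) β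
    (by omega)
  have hE := h.hE
  have hQ := h.hQ
  have hF := h.hF
  have hw := h.hw
  have mg := h.mg
  have rw' := h.rw
  have gx := h.gx
  have hP := h.hP
  have hra : 2 * a' ≤ a + cb := by omega
  have hraQ : (1 + 1) * a' ≤ Q := by omega
  have hk : kc Q R0 2 a' + 1 ≤ kc Q R0 1 (a + 1) := kc_step (r := 1) hR hraQ ha'
  have hk1 : kc Q R0 2 a' ≤ kap Q R0 := kc_le hR hraQ
  have hfl : (0 : ℤ) ≤ if 1 ≤ cb ∧ cb < a + 1 then 2 * (Q : ℤ) else 0 := by
    split_ifs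
    · positivity
    · exact le_rfl
  have hP' : bz Q R0 (W - (u + 1)) o (kc Q R0 2 a') ≤
      pz f (W - (u + 1)) o (2 * a') (ex f β) 0 := by
    rw [sub_succ_eq]
    refine ws_P (d := 1 * (a + 1)) (y := cb - f) hk hk1 (by omega) (by omega) ?_
    linarith
  obtain ⟨w', rfl⟩ : ∃ w', w = w' + 1 := ⟨w - 1, by omega⟩
  have hw' : o + 1 - (w' + 1) = o - w' := by omega
  rcases Nat.eq_zero_or_pos a' with rfl | ha1
  · obtain ⟨σ'', c', h2, h3, h4⟩ := Z_closed (W := W) (Q := Q) hR hf (o := o) (r := 2)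
      (u := u + 1) (μ := μ) (ν := 1) (cb := 0) (F := F) (I := 0) (β := β) (by omega) (by omega) hF
      (Nat.zero_le _) (Or.inr ⟨by omega, gx_close (w := w' + 1) (Nat.le_add_left _ _) (by omega)
        gx⟩) (by
        rw [Nat.cast_zero, mul_zero, add_zero]
        refine bz_zero_le.trans (hP'.trans (le_of_eq ?_))
        rw [mul_zero])
    exact ⟨σ'', c + c', hp.trans h2, by omega, h4⟩
  · rw [hw'] at gx
    refine ⟨_, c, hp, hc, Or.inl (Or.inr ⟨F, 3, w', ?_⟩)⟩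
    refine
      { hE := by show W - (u + 1) ≤ μ; omega
        hQ := by show o ≤ Q; omega
        hF := hF
        hw := by show kc Q R0 2 a' + 3 ≤ w'; omega
        a1 := ha1
        r1 := by show 1 ≤ 2; omega
        ra := by show 2 * a' ≤ o; omega
        n1 := le_rfl
        mg := by show 2 * F + 2 + 4 * w' + 2 * 2 ≤ o; omega
        rw := by show 2 + w' ≤ kap Q R0 + 7; omega
        gx := gx
        sh := fun _ => by show 2 * (2 * a') ≤ 3 * (o - w'); omega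
        n0 := fun h1 => absurd h1 one_ne_zero
        lg := fun h1 => absurd h1 (Nat.not_succ_le_zero 0)
        hP := ?_ }
    show bz Q R0 (W - (u + 1)) o (kc Q R0 2 a') +
      (if 1 ≤ 0 ∧ 0 < a' then 2 * (Q : ℤ) else 0) ≤
      pz f (W - (u + 1)) o (2 * a') (ex f β) (0 - f)
    rw [if_neg (by omega), add_zero, Nat.zero_sub]
    exact hP'

end Pool.Agent.OCN.YC
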