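import Pool.Agent.Lib_helper28.OCN.YcZ3

/-!
# MP_aeb124_co: number game, the states without conversions (the theorem)
-/

set_option autoImplicit false

namespace Pool.Agent.OCN.YC

variable {W nl Q R0 f : ℕ}

theorem Zc.o {F o u μ : ℕ} {β : Multiset ℕ} (h : Zc W Q R0 f F o u μ β) :
    2 * (W - u) + 2 * f + kK Q R0 ≤ o + 4 := by
  have h1 := h.mg
  have h2 : bz Q R0 (W - u) o 0 ≤ pz f (W - u) o 0 (ex f β) 0 + 0 := by
    rw [add_zero]
    exact h.hP
  exact pz_o (by omega) (by positivity) h2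

theorem Zw.o {F t w o a r u μ ν cb : ℕ} {β : Multiset ℕ}
    (h : Zw W Q R0 f F t w o a r u μ ν cb β) :
    2 * (W - u) + 2 * f + kK Q R0 ≤ o + 4 := by
  have h1 := h.mg
  have h6 : (0 : ℤ) ≤ if 1 ≤ cb ∧ cb < a then 2 * (Q : ℤ) else 0 := by
    split_ifs
    · positivity
    · exact le_rfl
  have h2 : bz Q R0 (W - u) o (kc Q R0 r a) ≤ pz f (W - u) o (r * a) (ex f β) (cb - f) + 0 := by
    have := h.hP
    linarith
  exact pz_o (by omega) (by positivity) h2

/-- the potential, one level less -/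
theorem Z_P5 {E o d x x' y k : ℕ} {l : ℤ} (hk : k ≤ kap Q R0) (hQ : o ≤ Q) (hx : x' ≤ x)
    (hP : bz Q R0 E o k + l ≤ pz f E o d x y) : bz Q R0 (E - 1) o k + l ≤ pz f (E - 1) o d x' y := by
  have hx' : (x' : ℤ) ≤ x := by exact_mod_cast hx
  rcases Nat.eq_zero_or_pos E with rfl | hE
  · rw [Nat.zero_sub]
    unfold pz at *
    linarith
  · obtain ⟨e, rfl⟩ : ∃ e, E = e + 1 := ⟨E - 1, by omega⟩
    rw [Nat.add_sub_cancel]
    unfold bz pz at *
    rw [if_neg (Nat.succ_ne_zero e)] at hP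
    have h5 : (o : ℤ) * k ≤ Q * kap Q R0 :=
      mul_le_mul (by exact_mod_cast hQ) (by exact_mod_cast hk) (Int.natCast_nonneg _)
        (Int.natCast_nonneg _)
    have h7 : (if e = 0 then 2 * ((o : ℤ) * k) else 2 * ((Q : ℤ) * kap Q R0)) ≤
        2 * ((Q : ℤ) * kap Q R0) := by
      split_ifs
      · linarith
      · exact le_rfl
    have h8 : (0 : ℤ) ≤ o := Int.natCast_nonneg _
    push_cast at hP ⊢
    linarith

theorem Zc.ok {F o u μ ν cb : ℕ} {β : Multiset ℕ} (h : Zc W Q R0 f F o u μ β) :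
    Ok W ⟨o, 0, 0, u, μ, ν, cb, β⟩ := by
  have h1 := h.o
  have h2 := h.mg
  have h3 : 16 ≤ kK Q R0 := Nat.le_add_left _ _
  have h4 := h.hF
  exact
    { n0 := fun _ => rfl
      o1 := by show 1 ≤ o; omega
      eR := by show W - u + 1 ≤ o; omega
      eA := fun h5 => absurd h5 (Nat.not_succ_le_zero 0)
      f1 := fun j hj => by
        have := h4 j hj
        show j + 1 ≤ o
        omega
      w1 := by show 0 * 0 ≤ o; omega
      w2 := Or.inr fun j hj => by
        have := h4 j hj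
        show 0 * 0 + j + 1 ≤ o
        omega
      w3 := fun h5 => absurd h5 (Nat.not_succ_le_zero 0) }

theorem Zw.ok {F t w o a r u μ ν cb : ℕ} {β : Multiset ℕ}
    (h : Zw W Q R0 f F t w o a r u μ ν cb β) : Ok W ⟨o, a, r, u, μ, ν, cb, β⟩ := by
  have h1 := h.o
  have h2 := h.mg
  have h3 : kK Q R0 = 4 * (kap Q R0 + 7) + 16 := rfl
  have h4 := h.hF
  have h5 := h.a1
  have h6 := h.rw
  exact
    { n0 := fun h7 => absurd (show a = 0 from h7) (by omega)
      o1 := by show 1 ≤ o; omega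
      eR := by show W - u + 1 ≤ o; omega
      eA := fun _ => by show W + r - u + 1 ≤ o; omega
      f1 := fun j hj => by
        have := h4 j hj
        show j + 1 ≤ o
        omega
      w1 := h.ra
      w2 := by
        show 1 ≤ ν ∨ ∀ j ∈ β, r * a + j + 1 ≤ o
        rcases Nat.eq_zero_or_pos ν with h7 | h7
        · right
          intro j hj
          have h8 := h4 j hj
          have h9 := h.n0 h7
          omega
        · exact Or.inl h7
      w3 := fun _ h7 => by
        obtain ⟨h8, h9, _, h10, _⟩ := h.lg h7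
        exact ⟨h8, by show cb + 1 ≤ a + ν; omega⟩ }

/-- the states are sound -/
theorem ZS.ok {σ : St} (h : ZS W Q R0 f σ) : Ok W σ := by
  obtain ⟨o, a, r, u, μ, ν, cb, β⟩ := σ
  rcases h with ⟨h1, h2, F, h3⟩ | ⟨F, t, w, h3⟩
  · have h1' : a = 0 := h1
    have h2' : r = 0 := h2
    subst h1' h2'
    exact h3.ok
  · exact h3.ok

/-- an attack, no window -/
theorem Zc_att (hR : 1 ≤ R0) (hf : f ≤ nl) {o u μ ν cb F I : ℕ} {β : Multiset ℕ} {σ' : St}
    (h : Zc W Q R0 f F o u μ β) (ha : Att W ⟨o, 0, 0, u, μ, ν, cb, β⟩ σ' I) :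
    ∃ σ'' c, Pays σ' σ'' c ∧ c ≤ I ∧ (ZS W Q R0 f σ'' ∨ Ex W nl σ'') := by
  have ho := h.o
  have h3 : 16 ≤ kK Q R0 := Nat.le_add_left _ _
  have hE := h.hE
  have hF := h.hF
  have mg := h.mg
  cases ha with
  | lR o _ _ _ _ _ _ _ _ =>
    exact Zc_money hR hf h hE hF le_rfl (by omega) (by omega) (by omega)
  | hR o _ _ _ _ _ _ _ _ =>
    refine Zc_money hR hf h hE ?_ ?_ le_rfl (by omega) ?_
    · intro j hj
      rcases Multiset.mem_cons.1 hj with h4 | h4
      · omega
      · exact hF j h4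
    · rw [ex_cons, Nat.zero_sub, zero_add]
    · rw [ex_cons, Nat.zero_sub]
      omega
  | b0 o _ _ _ _ _ j γ =>
    have hj := hF j (Multiset.mem_cons_self j γ)
    refine Zc_money hR hf h (by omega) ?_ ?_ (by omega) (by omega) ?_
    · intro i hi
      rcases Multiset.mem_cons.1 hi with h4 | h4
      · omega
      · exact hF i (Multiset.mem_cons_of_mem h4)
    · rw [ex_cons, ex_cons]
      omega
    · rw [ex_cons, ex_cons]
      omega
  | bC o _ _ _ _ _ _ j γ hh =>
    have hj := hF j (Multiset.mem_cons_self j γ)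
    refine Zc_money hR hf h (by omega) ?_ ?_ (by omega) (by omega) ?_
    · intro i hi
      rcases Multiset.mem_cons.1 hi with h4 | h4
      · omega
      · exact hF i (Multiset.mem_cons_of_mem h4)
    · rw [ex_cons, ex_cons]
      omega
    · rw [ex_cons, ex_cons]
      omega
  | bR o _ _ _ _ ν _ j γ hh =>
    have hj := hF j (Multiset.mem_cons_self j γ)
    exfalso
    omega
  | f0 o _ _ _ _ _ _ =>
    exact Zc_money hR hf h (by omega) hF le_rfl le_rfl (by omega) (by omega)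
  | fC o _ _ _ _ _ _ _ hh =>
    exact Zc_money hR hf h (by omega) hF le_rfl (by omega) (by omega) (by omega)
  | r4 _ _ _ _ _ _ _ _ hh =>
    refine Z_closed (W := W) (Q := Q) (F := F) hR hf hE h.hQ hF (by omega)
      (Or.inr ⟨mg, ?_⟩) ?_
    · have := h.gx
      omega
    · have := h.hP
      have h5 : (0 : ℤ) ≤ 2 * ((o + 1 - 0 * 0 : ℕ) : ℤ) := by positivity
      linarith
  | r5f _ _ _ _ μ _ _ _ =>
    refine ⟨_, 0, Pays.refl _, Nat.zero_le _, Or.inl (Or.inl ⟨rfl, rfl, F, ?_⟩)⟩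
    refine
      { hE := by show W - (u + 1) ≤ μ; omega
        hQ := h.hQ
        hF := hF
        mg := mg
        gx := h.gx
        hP := ?_ }
    show bz Q R0 (W - (u + 1)) o 0 ≤ pz f (W - (u + 1)) o 0 (ex f β) 0
    have h5 := Z_P5 (l := 0) (Nat.zero_le _) h.hQ le_rfl (by rw [add_zero]; exact h.hP)
    rw [sub_succ_eq, ← add_zero (bz _ _ _ _ _)]
    exact h5
  | r5b _ _ _ _ _ _ _ j γ =>
    have hx : ex f γ ≤ ex f (j ::ₘ γ) := by
      rw [ex_cons]
      omega
    refine ⟨_, 0, Pays.refl _, Nat.zero_le _, Or.inl (Or.inl ⟨rfl, rfl, F, ?_⟩)⟩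
    refine
      { hE := by show W - (u + 1) ≤ μ; omega
        hQ := h.hQ
        hF := fun i hi => hF i (Multiset.mem_cons_of_mem hi)
        mg := mg
        gx := (Nat.mul_le_mul_left 4 hx).trans h.gx
        hP := ?_ }
    show bz Q R0 (W - (u + 1)) o 0 ≤ pz f (W - (u + 1)) o 0 (ex f γ) 0
    have h5 := Z_P5 (l := 0) (Nat.zero_le _) h.hQ hx (by rw [add_zero]; exact h.hP)
    rw [sub_succ_eq, ← add_zero (bz _ _ _ _ _)]
    exact h5
  | nil _ =>
    exact ⟨_, 0, Pays.refl _, Nat.zero_le _, Or.inl (Or.inl ⟨rfl, rfl, F, h⟩)⟩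

/-- an attack on the state, the window is closed by it -/
theorem Zw_close (hR : 1 ≤ R0) (hf : f ≤ nl) {o o' a r r' u μ μ' ν ν' cb cb' F I t w : ℕ}
    {β β' : Multiset ℕ} (h : Zw W Q R0 f F t w o' a r u μ ν cb β) (ho : o' = o + 1 ∨ o' = o)
    (hμ : W - u ≤ μ') (hF : ∀ j ∈ β', j ≤ F) (hx : ex f β' ≤ ex f β) (hI : I ≤ o + 1)
    (hm : o' = o + 1 → o + ex f β' ≤ I + (W - u) + f + r * a + ex f β) :
    ∃ σ'' c, Pays ⟨o, 0, r', u, μ', ν', cb', β'⟩ σ'' c ∧ c ≤ I ∧
      (ZS W Q R0 f σ'' ∨ Ex W nl σ'') := by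
  have hk1 : 1 ≤ kc Q R0 r a := kc_pos h.a1
  have hw := h.hw
  have mg := h.mg
  have gx := h.gx
  have hQ := h.hQ
  refine Z_closed (W := W) (Q := Q) (F := F) hR hf hμ (by omega) hF hI (Or.inr ⟨by omega, ?_⟩) ?_
  · have h1 : (o' - w) * (o' - w - (2 * F + 2)) ≤ o * (o - (2 * F + 2)) :=
      Nat.mul_le_mul (by omega) (by omega)
    omega
  · have h1 := h.hP
    have h6 : (0 : ℤ) ≤ if 1 ≤ cb ∧ cb < a then 2 * (Q : ℤ) else 0 := by
      split_ifs
      · positivity
      · exact le_rfl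
    have h7 : bz Q R0 (W - u) o' 0 ≤ bz Q R0 (W - u) o' (kc Q R0 r a) := bz_zero_le
    have h8 : (0 : ℤ) ≤ ((cb - f : ℕ) : ℤ) := Int.natCast_nonneg _
    have h9 : (ex f β' : ℤ) ≤ ex f β := by exact_mod_cast hx
    have h10 : (0 : ℤ) ≤ ((r * a : ℕ) : ℤ) := Int.natCast_nonneg _
    have h11 : (0 : ℤ) ≤ (I : ℤ) := Int.natCast_nonneg _
    rcases ho with rfl | rfl
    · have h2 : bz Q R0 (W - u) o 0 ≤ bz Q R0 (W - u) (o + 1) 0 - kK Q R0 := by
        unfold bz
        rw [Nat.cast_zero, mul_zero, mul_zero, Nat.cast_add, Nat.cast_one, mul_zero, mul_zero]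
        split_ifs <;> linarith
      have h3 : (16 : ℤ) ≤ kK Q R0 := by
        have : 16 ≤ kK Q R0 := Nat.le_add_left _ _
        exact_mod_cast this
      have h4 : (o : ℤ) + ex f β' ≤ I + (W - u : ℕ) + f + (r * a : ℕ) + ex f β := by
        exact_mod_cast hm rfl
      have h5 : pz f (W - u) (o + 1) (r * a) (ex f β) (cb - f) =
          pz f (W - u) o 0 (ex f β') 0 + 2 * o + 1 - 2 * (W - u : ℕ) - 2 * f -
          2 * (r * a : ℕ) - 2 * ex f β + 2 * ex f β' - 2 * (cb - f : ℕ) := by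
        unfold pz
        push_cast
        ring
      linarith
    · unfold pz at h1 ⊢
      rw [Nat.cast_zero]
      linarith

/-- an attack, window -/
theorem Zw_att (hR : 1 ≤ R0) (hf : f ≤ nl) {o a r u μ ν cb F t w I : ℕ} {β : Multiset ℕ}
    {σ' : St} (h : Zw W Q R0 f F t w o a r u μ ν cb β)
    (ha : Att W ⟨o, a, r, u, μ, ν, cb, β⟩ σ' I) :
    ∃ σ'' c, Pays σ' σ'' c ∧ c ≤ I ∧ (ZS W Q R0 f σ'' ∨ Ex W nl σ'') := by
  have ho := h.o
  have hkK : kK Q R0 = 4 * (kap Q R0 + 7) + 16 := rfl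
  have hE := h.hE
  have hF := h.hF
  have mg := h.mg
  have rw' := h.rw
  have a1 := h.a1
  cases ha with
  | lR o _ _ _ _ _ _ _ _ =>
    exact Zw_money hR hf h hE le_rfl hF le_rfl (by omega) (by omega) (Or.inl rfl) (by omega)
  | lA o a _ _ _ _ _ _ =>
    have e : r * (a + 1) = r * a + r := by ring
    exact Zw_money hR hf h hE (Nat.le_succ a) hF le_rfl (by omega) (by omega) (Or.inl rfl)
      (by omega)
  | hR o _ _ _ _ _ _ _ _ =>
    refine Zw_money hR hf h hE le_rfl ?_ ?_ le_rfl (by omega) (Or.inl rfl) ?_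
    · intro j hj
      rcases Multiset.mem_cons.1 hj with h4 | h4
      · omega
      · exact hF j h4
    · rw [ex_cons, Nat.zero_sub, zero_add]
    · rw [ex_cons, Nat.zero_sub]
      omega
  | hA o a _ _ _ _ _ _ =>
    have e : r * (a + 1) = r * a + r := by ring
    refine Zw_money hR hf h hE (Nat.le_succ a) ?_ ?_ le_rfl (by omega) (Or.inl rfl) ?_
    · intro j hj
      rcases Multiset.mem_cons.1 hj with h4 | h4
      · omega
      · exact hF j h4
    · rw [ex_cons, Nat.zero_sub, zero_add]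
    · rw [ex_cons, Nat.zero_sub]
      omega
  | b0 o _ _ _ _ _ j γ => exact absurd a1 (Nat.not_succ_le_zero 0)
  | bA o a _ _ _ _ _ j γ =>
    have hj := hF j (Multiset.mem_cons_self j γ)
    have e : r * (a + 1) = r * a + r := by ring
    refine Zw_money hR hf h (by omega) (Nat.le_succ a) ?_ ?_ (by omega) (by omega) (Or.inl rfl) ?_
    · intro i hi
      rcases Multiset.mem_cons.1 hi with h4 | h4
      · omega
      · exact hF i (Multiset.mem_cons_of_mem h4)
    · rw [ex_cons, ex_cons]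
      omega
    · rw [ex_cons, ex_cons]
      omega
  | bC o _ _ _ _ _ _ j γ hh =>
    have hj := hF j (Multiset.mem_cons_self j γ)
    refine Zw_close hR hf h (Or.inl rfl) (by omega) ?_ ?_ (by omega) ?_
    · intro i hi
      rcases Multiset.mem_cons.1 hi with h4 | h4
      · omega
      · exact hF i (Multiset.mem_cons_of_mem h4)
    · rw [ex_cons, ex_cons]
      omega
    · intro _
      rw [ex_cons, ex_cons]
      omega
  | bR o _ _ _ _ ν _ j γ hh =>
    have hj := hF j (Multiset.mem_cons_self j γ)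
    have n1 := h.n1
    have hcb : cb = 0 := by
      by_contra hcon
      obtain ⟨h1, _, _, _, h2, _⟩ := h.lg (by omega)
      subst h1
      rw [one_mul] at hh
      omega
    refine Zw_money hR hf h (by omega) le_rfl ?_ ?_ (by omega) (by omega)
      (Or.inr ⟨hcb, by omega, by omega⟩) ?_
    · intro i hi
      rcases Multiset.mem_cons.1 hi with h4 | h4
      · omega
      · exact hF i (Multiset.mem_cons_of_mem h4)
    · rw [ex_cons, ex_cons]
      omega
    · rw [ex_cons, ex_cons]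
      omega
  | f0 o _ _ _ _ _ _ => exact absurd a1 (Nat.not_succ_le_zero 0)
  | fA o a _ _ _ _ _ _ =>
    have e : r * (a + 1) = r * a + r := by ring
    exact Zw_money hR hf h (by omega) (Nat.le_succ a) hF le_rfl le_rfl (by omega) (Or.inl rfl)
      (by omega)
  | fC o _ _ _ _ _ _ _ hh =>
    exact Zw_close hR hf h (Or.inl rfl) (by omega) hF le_rfl (by omega) (by omega)
  | ws o a _ _ _ _ _ => exact Z_ws hR hf h
  | wl o a _ _ _ _ _ hh =>
    rcases Nat.eq_zero_or_pos cb with rfl | hcb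
    · exact Z_ws hR hf h
    · exact Z_wl hR hf hcb h
  | r4 _ _ _ _ _ _ _ _ hh =>
    exact Zw_close hR hf h (Or.inr rfl) hE hF le_rfl (by omega) (by omega)
  | r5f _ _ _ _ μ _ _ _ =>
    refine ⟨_, 0, Pays.refl _, Nat.zero_le _, Or.inl (Or.inr ⟨F, t, w, ?_⟩)⟩
    refine
      { hE := by show W - (u + 1) ≤ μ; omega
        hQ := h.hQ
        hF := hF
        hw := h.hw
        a1 := a1
        r1 := h.r1
        ra := h.ra
        n1 := h.n1
        mg := mg
        rw := rw'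
        gx := h.gx
        sh := h.sh
        n0 := h.n0
        lg := h.lg
        hP := ?_ }
    have h5 := Z_P5 (kc_le hR (h.ra.trans h.hQ)) h.hQ le_rfl h.hP
    rw [← sub_succ_eq] at h5
    exact h5
  | r5b _ _ _ _ _ _ _ j γ =>
    have hx : ex f γ ≤ ex f (j ::ₘ γ) := by
      rw [ex_cons]
      omega
    refine ⟨_, 0, Pays.refl _, Nat.zero_le _, Or.inl (Or.inr ⟨F, t, w, ?_⟩)⟩
    refine
      { hE := by show W - (u + 1) ≤ μ; omega
        hQ := h.hQ
        hF := fun i hi => hF i (Multiset.mem_cons_of_mem hi)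
        hw := h.hw
        a1 := a1
        r1 := h.r1
        ra := h.ra
        n1 := h.n1
        mg := mg
        rw := rw'
        gx := (Nat.mul_le_mul_left 4 hx).trans h.gx
        sh := h.sh
        n0 := h.n0
        lg := h.lg
        hP := ?_ }
    have h5 := Z_P5 (kc_le hR (h.ra.trans h.hQ)) h.hQ hx h.hP
    rw [← sub_succ_eq] at h5
    exact h5
  | nil _ =>
    exact ⟨_, 0, Pays.refl _, Nat.zero_le _, Or.inl (Or.inr ⟨F, t, w, h⟩)⟩

/-- the class of the states without conversions is closed -/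
theorem ZS.att (hR : 1 ≤ R0) (hf : f ≤ nl) {σ σ' : St} {I : ℕ} (h : ZS W Q R0 f σ)
    (ha : Att W σ σ' I) :
    ∃ σ'' c, Pays σ' σ'' c ∧ c ≤ I ∧ (ZS W Q R0 f σ'' ∨ Ex W nl σ'') := by
  obtain ⟨o, a, r, u, μ, ν, cb, β⟩ := σ
  rcases h with ⟨h1, h2, F, h3⟩ | ⟨F, t, w, h3⟩
  · have h1' : a = 0 := h1
    have h2' : r = 0 := h2
    subst h1' h2'
    exact Zc_att hR hf h3 ha
  · exact Zw_att hR hf h3 ha

/-- the game without conversions -/
theorem ZS.game (hR : 1 ≤ R0) (hf : f ≤ nl) : Game W nl (ZS W Q R0 f) :=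
  { ok := fun _ h => h.ok
    st := fun _ h _ _ ha => h.att hR hf ha }

end Pool.Agent.OCN.YC
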